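import Pool.Agent.N588.TD.Wt

set_option autoImplicit false

/-!
# The shadow vertex rule with fixed weights: all budgets
-/

namespace Pool.Agent.N588.TD

open Pool.Agent.NPC hiding inp
open Pool.Agent.Y644.QS Pool.Agent.Y644.QW Pool.Agent.H687R2.LLL
open Pool.Agent.N477.RS

/-- complete runs do not change with a larger budget -/
theorem run1_eq {x : Inp} {T T' : ℕ} (hTT : T ≤ T') {w : List ℕ} (h : run1 x T w ≠ []) :
    run1 x T' w = run1 x T w := by
  unfold run1 at h ⊢
  by_cases h0 : (improve (crow x) [] (rowsJ x)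
      (hdp (pth (pvec x w) (crow x) (rowsJ x) (startV x) T))).isNone = true
  · have hfix : ∀ k, pth (pvec x w) (crow x) (rowsJ x) (startV x) (T + k) =
        pth (pvec x w) (crow x) (rowsJ x) (startV x) T := by
      intro k
      induction k with
      | zero => rfl
      | succ k ih =>
        have e : pth (pvec x w) (crow x) (rowsJ x) (startV x) (T + (k + 1)) =
            N477.RS.pstep (pvec x w) (crow x) (rowsJ x)
              (pth (pvec x w) (crow x) (rowsJ x) (startV x) (T + k)) := by
          unfold pth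
          rw [← add_assoc, Function.iterate_succ_apply']
        rw [e, ih]
        unfold N477.RS.pstep
        rw [Option.isNone_iff_eq_none] at h0
        rw [nxt_none.2 h0, Option.elim_none]
    obtain ⟨k, rfl⟩ := Nat.exists_eq_add_of_le hTT
    rw [hfix k]
  · rw [if_neg h0] at h
    exact absurd rfl h

theorem run1_single {x : Inp} {T : ℕ} {w : List ℕ} (h : run1 x T w ≠ []) :
    ∃ o, run1 x T w = [o] := by
  unfold run1 at h ⊢
  split_ifs at h ⊢
  · exact ⟨_, rfl⟩
  · exact absurd rfl h

variable {m n : ℕ} {A : Fin m → Fin n → ℚ} {b : Fin m → ℚ} {c v : Fin n → ℚ}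

/-- the output does not depend on the budget -/
theorem run_all (hv : re v ∈ Set.extremePoints ℝ (polyhedron A b)) :
    ∃ o : Outp, (∀ T, run1 (inp A b c v) T (wts (sz (inp A b c v))) = [] ∨
      run1 (inp A b c v) T (wts (sz (inp A b c v))) = [o]) ∧
      ∃ T, run1 (inp A b c v) T (wts (sz (inp A b c v))) = [o] := by
  obtain ⟨B, hB, hvis⟩ := run1_complete (c := c) hv
  have hmn : m + n < sz (inp A b c v) := le_sz_inp
  obtain ⟨ω, hω, hw⟩ := wts_eq (sz (inp A b c v))
  have hne : ∃ T, run1 (inp A b c v) T (wts (sz (inp A b c v))) ≠ [] := by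
    by_contra hcon
    push Not at hcon
    have h1 := hvis (sz (inp A b c v)) _ (by omega) ω (Vis (N477.MD.Poly (arow (Ar A)) (arhs (br b)))
      (fun j => (c j : ℝ)) (N477.MD.zz (arow (Ar A)) B 0 (gpt ((2 ^ kap (sz (inp A b c v))) ^
        sz (inp A b c v)) fun k => ω (Fin.castLE (by omega) k)))).ncard (by
      rw [← hw]; exact hcon _)
    omega
  obtain ⟨T0, hT0⟩ := hne
  obtain ⟨o, ho⟩ := run1_single hT0
  refine ⟨o, fun T => ?_, T0, ho⟩
  by_cases hT : run1 (inp A b c v) T (wts (sz (inp A b c v))) = []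
  · exact Or.inl hT
  · right
    rcases le_total T T0 with h | h
    · rw [← run1_eq h hT, ho]
    · rw [run1_eq h hT0, ho]

/-- one pivot or more needs one variable -/
theorem path_zero {N : ℕ} {x : ℕ → Fin n → ℚ} {d : Option (Fin n → ℚ)}
    (h : IsSimplexPath (polyhedron A b) c v N x d) (hn : n = 0) : N = 0 := by
  by_contra hN
  subst hn
  have h1 := (h.2.2.1 0 (Nat.pos_of_ne_zero hN)).2
  unfold obj at h1
  simp at h1

theorem Bd_eq (D s : ℕ) : Bd (D + 1) D s = (3 * s) ^ ((2 * D + 4) ^ D) := by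
  unfold Bd
  congr 2

end Pool.Agent.N588.TD

namespace Pool.Agent.NPC.N588TD

open Pool.Agent.N477.RS Pool.Agent.Y644.QS Pool.Agent.Y644.QW Pool.Agent.H687R2.LLL
  Pool.Agent.NPC.H532.RP Pool.Agent.NPC.Y644 Pool.Agent.N588.TD

/-- the algorithm for treedepth at most `D` -/
def solveD (D : ℕ) (s : List Bool) : Option Outp :=
  (unbits Inp s).elim none
    fun q => (run1 q ((3 * sz q) ^ ((2 * D + 4) ^ D)) (wts (sz q))).head?

theorem poly_solveD (D : ℕ) : PolyTime (fun s => bits (solveD D s)) := by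
  refine polyTime_bits ?_
  unfold solveD
  have hs : UPoly (fun p : List Bool × Inp => sz p.2) := UPoly.sz (Poly.snd Poly.id)
  have h0 : Poly (fun p : List Bool × Inp => wts (sz p.2)) := poly_wts hs
  have hT : UPoly (fun p : List Bool × Inp => (3 * sz p.2) ^ ((2 * D + 4) ^ D)) :=
    UPoly_pow (by fun_prop) _
  have h1 : Poly (fun p : List Bool × Inp =>
      (run1 p.2 ((3 * sz p.2) ^ ((2 * D + 4) ^ D)) (wts (sz p.2))).head?) :=
    Poly.head? (N477RS.poly_run1 (Poly.snd Poly.id) hT h0)
  exact Poly.optElim (h := fun (_ : List Bool) (q : Inp) =>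
    (run1 q ((3 * sz q) ^ ((2 * D + 4) ^ D)) (wts (sz q))).head?) poly_unbits (Poly.const _) h1

theorem solveD_bits (D : ℕ) (x : Inp) :
    solveD D (bits x) = (run1 x ((3 * sz x) ^ ((2 * D + 4) ^ D)) (wts (sz x))).head? := by
  unfold solveD
  rw [unbits_bits, Option.elim_some]

end Pool.Agent.NPC.N588TD
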