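import Mathlib

set_option autoImplicit false

/-!
# The number of sign vectors of finitely many affine functions
-/

namespace Pool.Agent.N588.TD

open Module

section

variable {ι E : Type} [AddCommGroup E] [Module ℝ E]

open Classical in
/-- the sign vector of the functions `h i`, `i ∈ s`, at the point `ξ` -/
noncomputable def sgs (h : ι → E →ᵃ[ℝ] ℝ) (s : Finset ι) (ξ : E) : ι → SignType :=
  fun i => if i ∈ s then SignType.sign (h i ξ) else 0

/-- the value of an affine function on a segment -/
theorem aff_seg (f : E →ᵃ[ℝ] ℝ) (x y : E) (t : ℝ) :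
    f ((1 - t) • x + t • y) = (1 - t) * f x + t * f y := by
  have h1 : (1 - t) • x + t • y = AffineMap.lineMap x y t := by
    rw [AffineMap.lineMap_apply_module]
  rw [h1, AffineMap.apply_lineMap, AffineMap.lineMap_apply_module]
  simp

theorem aff_eq (f : E →ᵃ[ℝ] ℝ) (x : E) : f x = f.linear x + f 0 := by
  have h := f.map_vadd 0 x
  simpa using h

/-- the sign is constant on segments -/
theorem sign_seg {a b t : ℝ} (h : SignType.sign a = SignType.sign b) (h0 : 0 ≤ t) (h1 : t ≤ 1) :
    SignType.sign ((1 - t) * a + t * b) = SignType.sign a := by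
  have h2 : 0 ≤ 1 - t := by linarith
  rcases lt_trichotomy a 0 with ha | ha | ha
  · have hb : b < 0 := by
      rw [sign_neg ha] at h
      exact sign_eq_neg_one_iff.1 h.symm
    rw [sign_neg ha, sign_eq_neg_one_iff]
    rcases h0.eq_or_lt with h3 | h3
    · subst h3; linarith
    · have := mul_nonpos_of_nonneg_of_nonpos h2 ha.le
      have := mul_neg_of_pos_of_neg h3 hb
      linarith
  · subst ha
    rw [sign_zero] at h
    have hb : b = 0 := sign_eq_zero_iff.1 h.symm
    subst hb
    simp
  · have hb : 0 < b := by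
      rw [sign_pos ha] at h
      exact sign_eq_one_iff.1 h.symm
    rw [sign_pos ha, sign_eq_one_iff]
    rcases h0.eq_or_lt with h3 | h3
    · subst h3; linarith
    · have := mul_nonneg h2 ha.le
      have := mul_pos h3 hb
      linarith

end

theorem cnt {ι : Type} [Fintype ι] (s : Finset ι) :
    ∀ (n : ℕ) (E : Type) [AddCommGroup E] [Module ℝ E] [FiniteDimensional ℝ E],
      finrank ℝ E = n → ∀ h : ι → E →ᵃ[ℝ] ℝ,
      (Set.range (sgs h s)).ncard ≤ (2 * s.card + 1) ^ n := by
  classical
  induction s using Finset.induction_on with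
  | empty =>
    intro n E _ _ _ _ h
    have h1 : Set.range (sgs h ∅) ⊆ {fun _ => 0} := by
      rintro _ ⟨ξ, rfl⟩
      rw [Set.mem_singleton_iff]
      funext i
      simp [sgs]
    calc (Set.range (sgs h ∅)).ncard ≤ ({fun _ => 0} : Set (ι → SignType)).ncard :=
          Set.ncard_le_ncard h1
      _ = 1 := Set.ncard_singleton _
      _ ≤ _ := by simp
  | insert a s ha ih =>
    intro n E _ _ _ hn h
    have hcard : (insert a s).card = s.card + 1 := Finset.card_insert_of_notMem ha
    rw [hcard]
    have hupd : ∀ ξ, sgs h (insert a s) ξ =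
        Function.update (sgs h s ξ) a (SignType.sign (h a ξ)) := by
      intro ξ
      funext i
      by_cases hi : i = a
      · subst hi; simp [sgs]
      · rw [Function.update_of_ne hi]
        simp [sgs, hi]
    by_cases hlin : (h a).linear = 0
    · have hconst : ∀ ξ, h a ξ = h a 0 := by
        intro ξ
        rw [aff_eq, hlin]
        simp
      have hsub : Set.range (sgs h (insert a s)) ⊆
          (fun τ => Function.update τ a (SignType.sign (h a 0))) '' Set.range (sgs h s) := by
        rintro _ ⟨ξ, rfl⟩
        exact ⟨_, ⟨ξ, rfl⟩, by rw [hupd ξ, hconst ξ]⟩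
      calc (Set.range (sgs h (insert a s))).ncard ≤ _ := Set.ncard_le_ncard hsub
        _ ≤ (Set.range (sgs h s)).ncard := Set.ncard_image_le
        _ ≤ (2 * s.card + 1) ^ n := ih n E hn h
        _ ≤ _ := Nat.pow_le_pow_left (by omega) n
    · obtain ⟨w, hw⟩ : ∃ w, (h a).linear w ≠ 0 := by
        by_contra hcon
        push Not at hcon
        exact hlin (LinearMap.ext hcon)
      -- a zero
      set p : E := (-(h a 0) / (h a).linear w) • w with hp
      have hp0 : h a p = 0 := by
        rw [aff_eq, hp, map_smul, smul_eq_mul, div_mul_cancel₀ _ hw]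
        ring
      set W := LinearMap.ker (h a).linear with hW
      have hfr : finrank ℝ W + 1 = finrank ℝ E := by
        have h1 := LinearMap.finrank_range_add_finrank_ker (h a).linear
        have h2 : finrank ℝ (LinearMap.range (h a).linear) = 1 := by
          have h3 : LinearMap.range (h a).linear = ⊤ := by
            rw [LinearMap.range_eq_top]
            intro y
            refine ⟨(y / (h a).linear w) • w, ?_⟩
            rw [map_smul, smul_eq_mul, div_mul_cancel₀ _ hw]
          rw [h3, finrank_top, finrank_self]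
        rw [h2, ← hW] at h1
        omega
      let ρ : W →ᵃ[ℝ] E := W.subtype.toAffineMap + AffineMap.const ℝ W p
      have hρ : ∀ u : W, ρ u = (u : E) + p := fun u => by simp [ρ]
      set R := Set.range (sgs h s) with hR
      set R0 := Set.range (sgs (fun i => (h i).comp ρ) s) with hR0
      let T : SignType → Set (ι → SignType) := fun e =>
        {τ | ∃ ξ, SignType.sign (h a ξ) = e ∧ sgs h s ξ = τ}
      have hT0 : T 0 ⊆ R0 := by
        rintro _ ⟨ξ, h0, rfl⟩
        rw [sign_eq_zero_iff] at h0
        have hmem : ξ - p ∈ W := by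
          rw [hW, LinearMap.mem_ker, map_sub]
          have e1 := aff_eq (h a) ξ
          have e2 := aff_eq (h a) p
          linarith
        refine ⟨⟨ξ - p, hmem⟩, ?_⟩
        funext i
        simp only [sgs, AffineMap.comp_apply, hρ, sub_add_cancel]
      have hTR : T 1 ∪ T (-1) ⊆ R := by
        rintro _ (⟨ξ, -, rfl⟩ | ⟨ξ, -, rfl⟩)
        · exact ⟨ξ, rfl⟩
        · exact ⟨ξ, rfl⟩
      have hTT : T 1 ∩ T (-1) ⊆ T 0 := by
        rintro τ ⟨⟨ξ, h1, h2⟩, ⟨ξ', h1', h2'⟩⟩
        rw [sign_eq_one_iff] at h1
        rw [sign_eq_neg_one_iff] at h1'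
        set t := h a ξ / (h a ξ - h a ξ') with ht
        have hd : 0 < h a ξ - h a ξ' := by linarith
        have ht0 : 0 ≤ t := (div_pos h1 hd).le
        have ht1 : t ≤ 1 := by
          rw [ht, div_le_one hd]; linarith
        refine ⟨(1 - t) • ξ + t • ξ', ?_, ?_⟩
        · rw [sign_eq_zero_iff, aff_seg]
          have : t * (h a ξ - h a ξ') = h a ξ := div_mul_cancel₀ _ hd.ne'
          linarith
        · rw [← h2]
          funext i
          by_cases hi : i ∈ s
          · have e1 := congrFun h2 i
            have e2 := congrFun h2' i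
            simp only [sgs, hi, if_true] at e1 e2 ⊢
            rw [aff_seg]
            exact sign_seg (e1.trans e2.symm) ht0 ht1
          · simp [sgs, hi]
      have hfin : ∀ S : Set (ι → SignType), S.Finite := fun S => Set.toFinite S
      have hunion : Set.range (sgs h (insert a s)) ⊆
          ((fun τ => Function.update τ a 1) '' T 1 ∪ (fun τ => Function.update τ a (-1)) '' T (-1)) ∪
            (fun τ => Function.update τ a 0) '' T 0 := by
        rintro _ ⟨ξ, rfl⟩
        rw [hupd ξ]
        rcases hs : SignType.sign (h a ξ) with _ | _ | _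
        · exact Or.inr ⟨sgs h s ξ, ⟨ξ, hs, rfl⟩, rfl⟩
        · exact Or.inl (Or.inr ⟨sgs h s ξ, ⟨ξ, hs, rfl⟩, rfl⟩)
        · exact Or.inl (Or.inl ⟨sgs h s ξ, ⟨ξ, hs, rfl⟩, rfl⟩)
      have hle : (Set.range (sgs h (insert a s))).ncard ≤
          (T 1).ncard + (T (-1)).ncard + (T 0).ncard := by
        refine (Set.ncard_le_ncard hunion).trans ((Set.ncard_union_le _ _).trans ?_)
        refine Nat.add_le_add ((Set.ncard_union_le _ _).trans ?_) Set.ncard_image_le
        exact Nat.add_le_add Set.ncard_image_le Set.ncard_image_le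
      have hie := Set.ncard_union_add_ncard_inter (T 1) (T (-1)) (hfin _) (hfin _)
      have h1 : (T 1 ∪ T (-1)).ncard ≤ R.ncard := Set.ncard_le_ncard hTR
      have h2 : (T 1 ∩ T (-1)).ncard ≤ (T 0).ncard := Set.ncard_le_ncard hTT
      have h3 : (T 0).ncard ≤ R0.ncard := Set.ncard_le_ncard hT0
      have h4 : R.ncard ≤ (2 * s.card + 1) ^ n := ih n E hn h
      obtain ⟨k, rfl⟩ : ∃ k, n = k + 1 := ⟨finrank ℝ W, by omega⟩
      have h5 : R0.ncard ≤ (2 * s.card + 1) ^ k := ih k W (by omega) _
      calc (Set.range (sgs h (insert a s))).ncard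
          ≤ (2 * s.card + 1) ^ (k + 1) + 2 * (2 * s.card + 1) ^ k := by omega
        _ = (2 * (s.card + 1) + 1) * (2 * s.card + 1) ^ k := by ring
        _ ≤ (2 * (s.card + 1) + 1) * (2 * (s.card + 1) + 1) ^ k := by
            gcongr
            omega
        _ = _ := by ring

end Pool.Agent.N588.TD
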