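import Pool.Agent.N588.TD.Pba

set_option autoImplicit false

/-!
# Maximisation over one bounded variable
-/

namespace Pool.Agent.N588.TD

open Module Filter Topology Set

variable {E F : Type} [AddCommGroup E] [Module ℝ E] [AddCommGroup F] [Module ℝ F]

/-- the coefficient of the last variable -/
noncomputable def co (h : (E × ℝ) →ᵃ[ℝ] ℝ) : ℝ := h.linear (0, 1)

/-- the restriction to `z = 0` -/
noncomputable def bo (h : (E × ℝ) →ᵃ[ℝ] ℝ) : E →ᵃ[ℝ] ℝ :=
  h.comp (LinearMap.inl ℝ E ℝ).toAffineMap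

theorem co_bo (h : (E × ℝ) →ᵃ[ℝ] ℝ) (x : E) (z : ℝ) : h (x, z) = bo h x + z * co h := by
  have h1 : ((x, z) : E × ℝ) = z • ((0, 1) : E × ℝ) +ᵥ ((x, 0) : E × ℝ) := by
    simp [vadd_eq_add]
  rw [h1, h.map_vadd, map_smul, vadd_eq_add, smul_eq_mul, add_comm]
  rfl

/-- the zero -/
noncomputable def ze (h : (E × ℝ) →ᵃ[ℝ] ℝ) : E →ᵃ[ℝ] ℝ := (-(co h)⁻¹) • bo h

theorem ze_spec {h : (E × ℝ) →ᵃ[ℝ] ℝ} (hc : co h ≠ 0) (x : E) (z : ℝ) :
    h (x, z) = co h * (z - ze h x) := by
  rw [co_bo]
  have : ze h x = -(co h)⁻¹ * bo h x := rfl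
  rw [this]
  field_simp
  ring

open Classical in
/-- the positions of the zeros, and the two end points -/
noncomputable def zer (H : Finset ((E × ℝ) →ᵃ[ℝ] ℝ)) : Finset (E →ᵃ[ℝ] ℝ) :=
  insert 0 (insert (AffineMap.const ℝ E 1) ((H.filter (fun h => co h ≠ 0)).image ze))

open Classical in
/-- the functions which decide the order of the zeros -/
noncomputable def ord (H : Finset ((E × ℝ) →ᵃ[ℝ] ℝ)) : Finset (E →ᵃ[ℝ] ℝ) :=
  (H.filter (fun h => co h = 0)).image bo ∪ (zer H ×ˢ zer H).image (fun p => p.1 - p.2)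

theorem card_zer (H : Finset ((E × ℝ) →ᵃ[ℝ] ℝ)) : (zer H).card ≤ H.card + 2 := by
  classical
  unfold zer
  refine (Finset.card_insert_le _ _).trans ?_
  have h1 := Finset.card_insert_le (AffineMap.const ℝ E (1:ℝ))
    ((H.filter (fun h => co h ≠ 0)).image ze)
  have h2 : ((H.filter (fun h => co h ≠ 0)).image ze).card ≤ H.card :=
    Finset.card_image_le.trans (Finset.card_filter_le _ _)
  omega

theorem card_ord (H : Finset ((E × ℝ) →ᵃ[ℝ] ℝ)) :
    (ord H).card ≤ H.card + (H.card + 2) * (H.card + 2) := by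
  classical
  unfold ord
  refine (Finset.card_union_le _ _).trans ?_
  have h2 : ((H.filter (fun h => co h = 0)).image bo).card ≤ H.card :=
    Finset.card_image_le.trans (Finset.card_filter_le _ _)
  have h3 : ((zer H ×ˢ zer H).image (fun p => p.1 - p.2)).card ≤
      (H.card + 2) * (H.card + 2) := by
    refine Finset.card_image_le.trans ?_
    rw [Finset.card_product]
    exact Nat.mul_le_mul (card_zer H) (card_zer H)
  omega

theorem zero_mem_zer (H : Finset ((E × ℝ) →ᵃ[ℝ] ℝ)) : (0 : E →ᵃ[ℝ] ℝ) ∈ zer H := by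
  classical
  unfold zer
  exact Finset.mem_insert_self _ _

theorem one_mem_zer (H : Finset ((E × ℝ) →ᵃ[ℝ] ℝ)) : AffineMap.const ℝ E (1:ℝ) ∈ zer H := by
  classical
  unfold zer
  exact Finset.mem_insert_of_mem (Finset.mem_insert_self _ _)

theorem ord_diff {H : Finset ((E × ℝ) →ᵃ[ℝ] ℝ)} {x x' : E} (h : Same (ord H) x x')
    {p q : E →ᵃ[ℝ] ℝ} (hp : p ∈ zer H) (hq : q ∈ zer H) :
    SignType.sign (p x - q x) = SignType.sign (p x' - q x') := by
  classical
  exact h (p - q) (by
    unfold ord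
    refine Finset.mem_union_right _ (Finset.mem_image.2 ⟨(p, q), ?_, rfl⟩)
    exact Finset.mem_product.2 ⟨hp, hq⟩)

/-- the signs are determined by the position relative to the zeros -/
theorem same_of_pos {H : Finset ((E × ℝ) →ᵃ[ℝ] ℝ)} {x x' : E} (h : Same (ord H) x x')
    {z z' : ℝ} (hz : ∀ p ∈ zer H, SignType.sign (z - p x) = SignType.sign (z' - p x')) :
    Same H (x, z) (x', z') := by
  classical
  intro f hf
  by_cases hc : co f = 0
  · rw [co_bo, co_bo, hc, mul_zero, mul_zero, add_zero, add_zero]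
    refine h (bo f) ?_
    unfold ord
    exact Finset.mem_union_left _ (Finset.mem_image.2 ⟨f, Finset.mem_filter.2 ⟨hf, hc⟩, rfl⟩)
  · rw [ze_spec hc, ze_spec hc, sign_mul, sign_mul, hz (ze f) ?_]
    unfold zer
    exact Finset.mem_insert_of_mem (Finset.mem_insert_of_mem
      (Finset.mem_image.2 ⟨f, Finset.mem_filter.2 ⟨hf, hc⟩, rfl⟩))

/-- the signs just beside a point -/
theorem sign_ray (w : ℝ) {s : ℝ} (hs : s = 1 ∨ s = -1) : ∀ᶠ t in 𝓝[>] (0:ℝ),
    SignType.sign (w + s * t) =
      if SignType.sign w = 0 then SignType.sign s else SignType.sign w := by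
  have hc : ContinuousAt (fun t : ℝ => w + s * t) 0 := by fun_prop
  rcases lt_trichotomy w 0 with hw | hw | hw
  · have h1 : ∀ᶠ t in 𝓝 (0:ℝ), w + s * t < 0 :=
      hc.eventually_lt continuousAt_const (by simpa using hw)
    filter_upwards [nhdsWithin_le_nhds h1] with t ht
    rw [sign_neg ht, sign_neg hw]
    simp
  · subst hw
    filter_upwards [self_mem_nhdsWithin] with t ht
    have ht' : (0:ℝ) < t := ht
    rw [zero_add, sign_mul, sign_pos ht', mul_one]
    simp
  · have h1 : ∀ᶠ t in 𝓝 (0:ℝ), 0 < w + s * t :=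
      continuousAt_const.eventually_lt hc (by simpa using hw)
    filter_upwards [nhdsWithin_le_nhds h1] with t ht
    rw [sign_pos ht, sign_pos hw]
    simp

/-- concave functions with a slope at the start of a ray -/
theorem ray_le {f : ℝ → ℝ} (hf : ConcaveOn ℝ univ f) {u s k : ℝ}
    (h : ∀ᶠ t in 𝓝[>] (0:ℝ), f (u + s * t) = f u + s * t * k) (hk : s * k ≤ 0) {t : ℝ}
    (ht : 0 ≤ t) : f (u + s * t) ≤ f u := by
  rcases ht.eq_or_lt with h0 | h0
  · rw [← h0]; simp
  · have h1 : ∀ᶠ r in 𝓝[>] (0:ℝ), r < t := nhdsWithin_le_nhds (gt_mem_nhds h0)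
    obtain ⟨r, ⟨hr1, hr2⟩, hr3⟩ := ((h.and h1).and self_mem_nhdsWithin).exists
    have hr0 : (0:ℝ) < r := hr3
    have h2 := hf.2 (mem_univ u) (mem_univ (u + s * t))
      (show 0 ≤ 1 - r / t by rw [sub_nonneg, div_le_one h0]; exact hr2.le)
      (show 0 ≤ r / t by positivity) (by ring)
    have e : (1 - r / t) • u + (r / t) • (u + s * t) = u + s * r := by
      simp only [smul_eq_mul]
      field_simp
      ring
    rw [e, hr1] at h2
    simp only [smul_eq_mul] at h2
    have h3 : r / t * (f (u + s * t) - f u) ≤ s * r * k := by linarith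
    have h4 : s * r * k ≤ 0 := by
      have := mul_nonpos_of_nonneg_of_nonpos hr0.le hk
      linarith
    have h5 : 0 < r / t := by positivity
    by_contra hcon
    push Not at hcon
    have := mul_pos h5 (sub_pos.2 hcon)
    linarith

section

variable {H : Finset ((E × ℝ) →ᵃ[ℝ] ℝ)} {K : Finset (F →ᵃ[ℝ] ℝ)} {w : E × ℝ → F → ℝ}
  {g : F →ᵃ[ℝ] ℝ}

/-- the function of the last variable -/
def phi (g : F →ᵃ[ℝ] ℝ) (w : E × ℝ → F → ℝ) (x : E) (y : F) (z : ℝ) : ℝ :=
  g y * z + w (x, z) y

theorem phi_concave (hw : ∀ x y, ConcaveOn ℝ univ (fun z => w (x, z) y)) (x : E) (y : F) :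
    ConcaveOn ℝ univ (phi g w x y) := by
  have h1 : ConcaveOn ℝ univ (fun z : ℝ => g y * z) := by
    have := (LinearMap.mul ℝ ℝ (g y)).concaveOn convex_univ
    exact this
  exact h1.add (hw x y)

theorem phi_cont (hw : ∀ x y, ConcaveOn ℝ univ (fun z => w (x, z) y)) (x : E) (y : F) :
    Continuous (phi g w x y) := by
  have h := (phi_concave (g := g) hw x y).continuousOn isOpen_univ
  exact continuousOn_univ.1 h

theorem apply_z (Φ : (E × ℝ) →ᵃ[ℝ] (F →ᵃ[ℝ] ℝ)) (x : E) (z z' : ℝ) (y : F) :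
    Φ (x, z') y = Φ (x, z) y + (z' - z) * Φ.linear (0, 1) y := by
  have h1 : ((x, z') : E × ℝ) = (z' - z) • ((0, 1) : E × ℝ) +ᵥ ((x, z) : E × ℝ) := by
    simp [vadd_eq_add]
  rw [h1, Φ.map_vadd, map_smul, vadd_eq_add]
  show (z' - z) * Φ.linear (0, 1) y + Φ (x, z) y = _
  rw [add_comm]

/-- the slopes beside a zero -/
theorem side (hw : ∀ x y, ConcaveOn ℝ univ (fun z => w (x, z) y))
    {S : Finset ((E × ℝ) →ᵃ[ℝ] (F →ᵃ[ℝ] ℝ))}
    (hS : ∀ (x : E × ℝ) (y : F), ∃ Φ ∈ S, ∀ x' y', Same H x x' → Same K y y' →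
      w x' y' = Φ x' y') {p : E →ᵃ[ℝ] ℝ} (hp : p ∈ zer H) {s : ℝ} (hs : s = 1 ∨ s = -1)
    (x0 : E) (y0 : F) :
    ∃ Φ ∈ S, ∀ x y, Same (ord H) x0 x → Same K y0 y →
      ∀ᶠ t in 𝓝[>] (0:ℝ), phi g w x y (p x + s * t) =
        phi g w x y (p x) + s * t * (g + Φ.linear (0, 1)) y := by
  have hpat : ∀ x, ∀ᶠ t in 𝓝[>] (0:ℝ), ∀ q ∈ zer H, SignType.sign (p x + s * t - q x) =
      if SignType.sign (p x - q x) = 0 then SignType.sign s else SignType.sign (p x - q x) := by
    intro x
    rw [Filter.eventually_all_finset]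
    intro q _
    filter_upwards [sign_ray (p x - q x) hs] with t ht
    rw [← ht]
    congr 1
    ring
  obtain ⟨t0, ht0⟩ := (hpat x0).exists
  obtain ⟨Φ, hΦS, hΦ⟩ := hS (x0, p x0 + s * t0) y0
  refine ⟨Φ, hΦS, fun x y hx hy => ?_⟩
  have h1 : ∀ᶠ t in 𝓝[>] (0:ℝ), phi g w x y (p x + s * t) =
      g y * (p x + s * t) + Φ (x, p x + s * t) y := by
    filter_upwards [hpat x] with t ht
    unfold phi
    rw [hΦ (x, p x + s * t) y (same_of_pos hx fun q hq => ?_) hy]
    rw [ht0 q hq, ht q hq, ord_diff hx hp hq]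
  -- the value at the end point
  have h2 : phi g w x y (p x) = g y * p x + Φ (x, p x) y := by
    have hl1 : Tendsto (fun t : ℝ => phi g w x y (p x + s * t)) (𝓝[>] 0)
        (𝓝 (phi g w x y (p x))) := by
      have hc : Continuous (fun t : ℝ => phi g w x y (p x + s * t)) :=
        (phi_cont hw x y).comp (by fun_prop)
      have := hc.tendsto 0
      rw [mul_zero, add_zero] at this
      exact this.mono_left nhdsWithin_le_nhds
    have hl2 : Tendsto (fun t : ℝ => g y * (p x + s * t) + Φ (x, p x + s * t) y) (𝓝[>] 0)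
        (𝓝 (g y * p x + Φ (x, p x) y)) := by
      have e : (fun t : ℝ => g y * (p x + s * t) + Φ (x, p x + s * t) y) =
          fun t : ℝ => g y * (p x + s * t) + (Φ (x, p x) y + (s * t) * Φ.linear (0, 1) y) := by
        funext t
        rw [apply_z Φ x (p x) (p x + s * t) y]
        congr 3
        ring
      rw [e]
      have hc : Continuous (fun t : ℝ => g y * (p x + s * t) +
          (Φ (x, p x) y + (s * t) * Φ.linear (0, 1) y)) := by fun_prop
      have := hc.tendsto 0
      simp only [mul_zero, add_zero, zero_mul] at this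
      exact this.mono_left nhdsWithin_le_nhds
    exact tendsto_nhds_unique (hl1.congr' h1) hl2
  filter_upwards [h1] with t ht
  rw [ht, h2, apply_z Φ x (p x) (p x + s * t) y]
  show _ = g y * p x + Φ (x, p x) y + s * t * (g y + Φ.linear (0, 1) y)
  ring

/-- the maximum is attained at a zero -/
theorem exists_max (hw : ∀ x y, ConcaveOn ℝ univ (fun z => w (x, z) y)) (hPBA : PBA H K w)
    (x : E) (y : F) {u : ℝ} (hu : u ∈ Icc (0:ℝ) 1)
    (hmax : ∀ z ∈ Icc (0:ℝ) 1, phi g w x y z ≤ phi g w x y u) :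
    ∃ p ∈ zer H, p x ∈ Icc (0:ℝ) 1 ∧ phi g w x y (p x) = phi g w x y u := by
  classical
  by_cases hex : ∃ p ∈ zer H, p x = u
  · obtain ⟨p, hp, rfl⟩ := hex
    exact ⟨p, hp, hu, rfl⟩
  · push Not at hex
    have hu0 : 0 < u := lt_of_le_of_ne hu.1 (hex 0 (zero_mem_zer H))
    have hu1 : u < 1 := lt_of_le_of_ne hu.2 (hex _ (one_mem_zer H)).symm
    -- the next zero on the right
    obtain ⟨p, hpm, hpmin⟩ := Finset.exists_min_image ((zer H).filter (fun p => u < p x))
      (fun p => p x) ⟨AffineMap.const ℝ E 1, Finset.mem_filter.2 ⟨one_mem_zer H, by simpa using hu1⟩⟩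
    rw [Finset.mem_filter] at hpm
    obtain ⟨hp, hpu⟩ := hpm
    have hp1 : p x ≤ 1 := by
      have := hpmin (AffineMap.const ℝ E 1) (Finset.mem_filter.2 ⟨one_mem_zer H, by simpa using hu1⟩)
      simpa using this
    obtain ⟨Φ, hΦ⟩ := hPBA (x, u) y
    -- all points of the cell
    have hcell : ∀ z, (∀ q ∈ zer H, SignType.sign (u - q x) = SignType.sign (z - q x)) →
        phi g w x y z = phi g w x y u + (z - u) * (g y + Φ.linear (0, 1) y) := by
      intro z hz
      unfold phi
      rw [hΦ (x, z) y (same_of_pos (Same.refl _ _) hz) (Same.refl _ _),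
        hΦ (x, u) y (Same.refl _ _) (Same.refl _ _), apply_z Φ x u z y]
      ring
    set k := g y + Φ.linear (0, 1) y with hk
    have hnear : ∀ s : ℝ, s = 1 ∨ s = -1 → s * k ≤ 0 := by
      intro s hs
      have h1 : ∀ᶠ t in 𝓝[>] (0:ℝ), ∀ q ∈ zer H,
          SignType.sign (u - q x) = SignType.sign (u + s * t - q x) := by
        rw [Filter.eventually_all_finset]
        intro q hq
        filter_upwards [sign_ray (u - q x) hs] with t ht
        have hne : SignType.sign (u - q x) ≠ 0 := by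
          rw [Ne, sign_eq_zero_iff, sub_eq_zero]
          exact fun h => hex q hq h.symm
        rw [if_neg hne] at ht
        rw [← ht]
        congr 1
        ring
      have h2 : ∀ᶠ t in 𝓝[>] (0:ℝ), u + s * t ∈ Icc (0:ℝ) 1 := by
        have hc : ContinuousAt (fun t : ℝ => u + s * t) 0 := by fun_prop
        have h3 : ∀ᶠ t in 𝓝 (0:ℝ), 0 < u + s * t :=
          continuousAt_const.eventually_lt hc (by simpa using hu0)
        have h4 : ∀ᶠ t in 𝓝 (0:ℝ), u + s * t < 1 :=
          hc.eventually_lt continuousAt_const (by simpa using hu1)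
        filter_upwards [nhdsWithin_le_nhds h3, nhdsWithin_le_nhds h4] with t h5 h6
        exact ⟨h5.le, h6.le⟩
      obtain ⟨t, ⟨ht1, ht2⟩, ht3⟩ := ((h1.and h2).and self_mem_nhdsWithin).exists
      have ht0 : (0:ℝ) < t := ht3
      have h3 := hmax _ ht2
      rw [hcell _ ht1] at h3
      have h4 : t * (s * k) ≤ 0 := by nlinarith
      by_contra hcon
      push Not at hcon
      have := mul_pos ht0 hcon
      linarith
    have hk0 : k = 0 := by
      have h1 := hnear 1 (Or.inl rfl)
      have h2 := hnear (-1) (Or.inr rfl)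
      linarith
    refine ⟨p, hp, ⟨(hu0.trans hpu).le, hp1⟩, ?_⟩
    -- by continuity
    have hl1 : Tendsto (phi g w x y) (𝓝[<] (p x)) (𝓝 (phi g w x y (p x))) :=
      ((phi_cont hw x y).tendsto _).mono_left nhdsWithin_le_nhds
    have hl2 : ∀ᶠ z in 𝓝[<] (p x), phi g w x y z = phi g w x y u := by
      have h1 : ∀ᶠ z in 𝓝[<] (p x), u < z := nhdsWithin_le_nhds (lt_mem_nhds hpu)
      filter_upwards [h1, self_mem_nhdsWithin] with z hz1 hz2
      have hz2' : z < p x := hz2
      rw [hcell z, hk0, mul_zero, add_zero]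
      intro q hq
      rcases lt_or_ge u (q x) with h | h
      · have h3 := hpmin q (Finset.mem_filter.2 ⟨hq, h⟩)
        rw [sign_neg (by linarith), sign_neg (by linarith)]
      · have h3 : q x < u := lt_of_le_of_ne h (hex q hq)
        rw [sign_pos (by linarith), sign_pos (by linarith)]
    exact tendsto_nhds_unique (hl1.congr' hl2) tendsto_const_nhds

/-- **Maximisation over one bounded variable.** -/
theorem col [FiniteDimensional ℝ E] [FiniteDimensional ℝ F]
    (hw : ∀ x y, ConcaveOn ℝ univ (fun z => w (x, z) y)) (hPBA : PBA H K w)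
    {v : E → F → ℝ} (hv : ∀ x y, ∃ u ∈ Icc (0:ℝ) 1, v x y = phi g w x y u ∧
      ∀ z ∈ Icc (0:ℝ) 1, phi g w x y z ≤ v x y) :
    ∃ (H' : Finset (E →ᵃ[ℝ] ℝ)) (K' : Finset (F →ᵃ[ℝ] ℝ)),
      H'.card ≤ H.card + (H.card + 2) * (H.card + 2) ∧
      K'.card ≤ K.card + (2 * H.card + 1) ^ (finrank ℝ E + 1) * (2 * K.card + 1) ^ finrank ℝ F ∧
      PBA H' K' v := by
  classical
  obtain ⟨S, hScard, hS⟩ := hPBA.fam
  rw [finrank_prod, finrank_self] at hScard
  refine ⟨ord H, K ∪ S.image (fun Φ => g + Φ.linear (0, 1)), card_ord H, ?_, ?_⟩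
  · refine (Finset.card_union_le _ _).trans (Nat.add_le_add_left ?_ _)
    exact Finset.card_image_le.trans hScard
  · intro x0 y0
    obtain ⟨u0, hu0, hvu0, hmax0⟩ := hv x0 y0
    obtain ⟨p, hp, hp01, hpv⟩ := exists_max (g := g) hw hPBA x0 y0 hu0
      (fun z hz => by rw [← hvu0]; exact hmax0 z hz)
    obtain ⟨Φ, hΦ⟩ := hPBA (x0, p x0) y0
    let ι : E →ᵃ[ℝ] E × ℝ := (AffineMap.id ℝ E).prod p
    have hι : ∀ x, ι x = (x, p x) := fun x => rfl
    refine ⟨(LinearMap.toSpanSingleton ℝ (F →ᵃ[ℝ] ℝ) g).toAffineMap.comp p + Φ.comp ι,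
      fun x y hx hy => ?_⟩
    have hyK : Same K y0 y := hy.mono Finset.subset_union_left
    have hval : ((LinearMap.toSpanSingleton ℝ (F →ᵃ[ℝ] ℝ) g).toAffineMap.comp p + Φ.comp ι) x y =
        phi g w x y (p x) := by
      unfold phi
      rw [hΦ (x, p x) y (same_of_pos hx fun q hq => ord_diff hx hp hq) hyK]
      show p x * g y + Φ (ι x) y = _
      rw [hι]
      ring
    rw [hval]
    -- the maximum is at the same zero
    obtain ⟨u, hu, hvu, hmax⟩ := hv x y
    have hpx : p x ∈ Icc (0:ℝ) 1 := by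
      have h0 := ord_diff hx hp (zero_mem_zer H)
      have h1 := ord_diff hx hp (one_mem_zer H)
      have e0 : ∀ x : E, (0 : E →ᵃ[ℝ] ℝ) x = 0 := fun _ => rfl
      have e1 : ∀ x : E, (AffineMap.const ℝ E (1:ℝ)) x = 1 := fun _ => rfl
      rw [e0, e0, sub_zero, sub_zero] at h0
      rw [e1, e1] at h1
      constructor
      · by_contra hneg
        push Not at hneg
        rw [sign_neg hneg, sign_eq_neg_one_iff] at h0
        linarith [hp01.1]
      · by_contra hneg
        push Not at hneg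
        rw [sign_pos (show 0 < p x - 1 by linarith), sign_eq_one_iff] at h1
        linarith [hp01.2]
    have hle : phi g w x y (p x) ≤ v x y := hmax _ hpx
    refine le_antisymm ?_ hle
    rw [hvu]
    -- one side after the other
    have hside : ∀ s : ℝ, s = 1 ∨ s = -1 → ∀ t : ℝ, 0 ≤ t → p x + s * t ∈ Icc (0:ℝ) 1 →
        phi g w x y (p x + s * t) ≤ phi g w x y (p x) := by
      intro s hs t ht htI
      rcases ht.eq_or_lt with h0 | h0
      · rw [← h0]; simp
      obtain ⟨Ψ, hΨS, hΨ⟩ := side (g := g) hw hS hp hs x0 y0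
      -- at the base point there is room on this side
      have hroom : ∀ᶠ r in 𝓝[>] (0:ℝ), p x0 + s * r ∈ Icc (0:ℝ) 1 := by
        have hc : ContinuousAt (fun r : ℝ => p x0 + s * r) 0 := by fun_prop
        rcases hs with rfl | rfl
        · have h1 : p x < 1 := by
            have := htI.2
            linarith
          have h2 : p x0 < 1 := by
            have h3 := ord_diff hx hp (one_mem_zer H)
            have e1 : ∀ x : E, (AffineMap.const ℝ E (1:ℝ)) x = 1 := fun _ => rfl
            rw [e1, e1, sign_neg (show p x - 1 < 0 by linarith), sign_eq_neg_one_iff] at h3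
            linarith
          have h4 : ∀ᶠ r in 𝓝 (0:ℝ), p x0 + 1 * r < 1 :=
            hc.eventually_lt continuousAt_const (by simpa using h2)
          filter_upwards [nhdsWithin_le_nhds h4, self_mem_nhdsWithin] with r hr1 hr2
          have hr2' : (0:ℝ) < r := hr2
          exact ⟨by linarith [hp01.1], hr1.le⟩
        · have h1 : 0 < p x := by
            have := htI.1
            linarith
          have h2 : 0 < p x0 := by
            have h3 := ord_diff hx hp (zero_mem_zer H)
            have e0 : ∀ x : E, (0 : E →ᵃ[ℝ] ℝ) x = 0 := fun _ => rfl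
            rw [e0, e0, sub_zero, sub_zero, sign_pos h1, sign_eq_one_iff] at h3
            exact h3
          have h4 : ∀ᶠ r in 𝓝 (0:ℝ), 0 < p x0 + (-1) * r :=
            continuousAt_const.eventually_lt hc (by simpa using h2)
          filter_upwards [nhdsWithin_le_nhds h4, self_mem_nhdsWithin] with r hr1 hr2
          have hr2' : (0:ℝ) < r := hr2
          exact ⟨hr1.le, by linarith [hp01.2]⟩
      have hk0 : s * (g + Ψ.linear (0, 1)) y0 ≤ 0 := by
        obtain ⟨r, ⟨hr1, hr2⟩, hr3⟩ := ((hroom.and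
          (hΨ x0 y0 (Same.refl _ _) (Same.refl _ _))).and self_mem_nhdsWithin).exists
        have hr0 : (0:ℝ) < r := hr3
        have h1 := hmax0 _ hr1
        rw [hr2, hvu0, ← hpv] at h1
        have h2 : r * (s * (g + Ψ.linear (0, 1)) y0) ≤ 0 := by linarith
        by_contra hcon
        push Not at hcon
        have := mul_pos hr0 hcon
        linarith
      have hk : s * (g + Ψ.linear (0, 1)) y ≤ 0 := by
        have hsign : SignType.sign ((g + Ψ.linear (0, 1)) y0) =
            SignType.sign ((g + Ψ.linear (0, 1)) y) :=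
          hy _ (Finset.mem_union_right _ (Finset.mem_image.2 ⟨Ψ, hΨS, rfl⟩))
        have h1 : SignType.sign (s * (g + Ψ.linear (0, 1)) y0) =
            SignType.sign (s * (g + Ψ.linear (0, 1)) y) := by
          rw [sign_mul, sign_mul, hsign]
        by_contra hcon
        push Not at hcon
        rw [sign_pos hcon, sign_eq_one_iff] at h1
        linarith
      exact ray_le (phi_concave hw x y) (hΨ x y hx hyK) hk ht
    rcases le_total (p x) u with h | h
    · have := hside 1 (Or.inl rfl) (u - p x) (by linarith) (by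
        have e : p x + 1 * (u - p x) = u := by ring
        rw [e]; exact hu)
      have e : p x + 1 * (u - p x) = u := by ring
      rwa [e] at this
    · have := hside (-1) (Or.inr rfl) (p x - u) (by linarith) (by
        have e : p x + (-1) * (p x - u) = u := by ring
        rw [e]; exact hu)
      have e : p x + (-1) * (p x - u) = u := by ring
      rwa [e] at this

end

end Pool.Agent.N588.TD
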