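import Mathlib

set_option autoImplicit false

/-!
# Small integral kernel vectors
-/

namespace Pool.Agent.N588.TD

open Matrix

attribute [local instance] Matrix.seminormedAddCommGroup

/-- an integral matrix with a nonzero real kernel vector has a small integral one -/
theorem int_kernel {ι : Type} [Fintype ι] {n : ℕ} (N : ι → Fin n → ℤ) {H : ℕ} (hH1 : 1 ≤ H)
    (hH : ∀ i j, |N i j| ≤ H) {x : Fin n → ℝ} (hx : x ≠ 0)
    (hker : ∀ i, ∑ j, (N i j : ℝ) * x j = 0) :
    ∃ e : Fin n → ℤ, e ≠ 0 ∧ (∀ i, ∑ j, N i j * e j = 0) ∧ ∀ j, |e j| ≤ ((n * H) ^ n : ℕ) := by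
  classical
  let r : ι → Fin n → ℝ := fun i j => (N i j : ℝ)
  have hn : 0 < n := by
    rcases Nat.eq_zero_or_pos n with h | h
    · subst h
      exact absurd (Subsingleton.elim x 0) hx
    · exact h
  obtain ⟨s, -, -, hspan, hs⟩ := exists_linearIndepOn_extension (v := r)
    (linearIndepOn_empty ℝ r) (Set.empty_subset (Set.univ : Set ι))
  -- the functional vanishes on the span
  have hvan : ∀ y ∈ Submodule.span ℝ (r '' s), y ⬝ᵥ x = 0 := by
    intro y hy
    induction hy using Submodule.span_induction with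
    | mem y hy =>
      obtain ⟨i, -, rfl⟩ := hy
      exact hker i
    | zero => simp
    | add y z _ _ h1 h2 => rw [add_dotProduct, h1, h2, add_zero]
    | smul t y _ h => rw [smul_dotProduct, h, smul_zero]
  have hlt : Submodule.span ℝ (r '' s) < ⊤ := by
    rw [lt_top_iff_ne_top]
    intro htop
    have h1 := hvan x (by rw [htop]; trivial)
    exact hx (dotProduct_self_eq_zero.1 h1)
  have hfin := Submodule.finrank_lt hlt.ne
  have hli : LinearIndependent ℝ (fun i : s => r i) := hs
  have hcard : Fintype.card s = Module.finrank ℝ (Submodule.span ℝ (r '' s)) := by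
    have h1 := finrank_span_eq_card hli
    have h2 : Set.range (fun i : s => r i) = r '' s := by
      ext y; simp
    rw [h2] at h1
    exact h1.symm
  have hcn : Fintype.card s < Fintype.card (Fin n) := by
    rw [hcard, Fintype.card_fin]
    simpa using hfin
  have hbase : (1 : ℝ) ≤ ((n * H : ℕ) : ℝ) := by
    have : 1 ≤ n * H := Nat.mul_pos hn hH1
    exact_mod_cast this
  -- a small vector in the kernel of the independent rows
  have hex : ∃ e : Fin n → ℤ, e ≠ 0 ∧ (∀ i : s, ∑ j, N i j * e j = 0) ∧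
      ∀ j, |e j| ≤ ((n * H) ^ n : ℕ) := by
    rcases Nat.eq_zero_or_pos (Fintype.card s) with h0 | h0
    · have hemp : IsEmpty s := Fintype.card_eq_zero_iff.1 h0
      refine ⟨Pi.single ⟨0, hn⟩ 1, ?_, fun i => (hemp.false i).elim, fun j => ?_⟩
      · intro h
        have := congrFun h ⟨0, hn⟩
        simp at this
      · have h1 : (1 : ℤ) ≤ ((n * H) ^ n : ℕ) := by
          have : 1 ≤ (n * H) ^ n := Nat.one_le_pow _ _ (Nat.mul_pos hn hH1)
          exact_mod_cast this
        by_cases hj : j = ⟨0, hn⟩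
        · subst hj
          simpa using h1
        · rw [Pi.single_eq_of_ne hj, abs_zero]
          exact Int.natCast_nonneg _
    · let M : Matrix s (Fin n) ℤ := Matrix.of fun i j => N i j
      obtain ⟨t, ht0, htM, htn⟩ := Int.Matrix.exists_ne_zero_int_vec_norm_le M hcn h0
      have hMn : max 1 ‖M‖ ≤ (H : ℝ) := by
        refine max_le (by exact_mod_cast hH1) ?_
        rw [Matrix.norm_le_iff (Nat.cast_nonneg H)]
        intro i j
        rw [Int.norm_eq_abs]
        have := hH i j
        exact_mod_cast this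
      refine ⟨t, ht0, fun i => congrFun htM i, fun j => ?_⟩
      have h1 : (|(t j : ℝ)|) ≤ ‖t‖ := by
        have := norm_le_pi_norm t j
        rwa [Int.norm_eq_abs] at this
      have hc1 : (Fintype.card s : ℝ) + 1 ≤ Fintype.card (Fin n) := by exact_mod_cast hcn
      have h2 : ((Fintype.card s : ℝ) / (Fintype.card (Fin n) - Fintype.card s)) ≤ (n : ℝ) := by
        have h3 : (1 : ℝ) ≤ (Fintype.card (Fin n) : ℝ) - Fintype.card s := by linarith
        refine (div_le_self (Nat.cast_nonneg _) h3).trans ?_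
        have h4 : (Fintype.card (Fin n) : ℝ) = n := by rw [Fintype.card_fin]
        linarith
      have h5 : ((Fintype.card (Fin n) : ℝ) * max 1 ‖M‖) ≤ ((n * H : ℕ) : ℝ) := by
        rw [Fintype.card_fin]
        push_cast
        exact mul_le_mul_of_nonneg_left hMn (Nat.cast_nonneg n)
      have h6 : (0 : ℝ) ≤ (Fintype.card s : ℝ) / (Fintype.card (Fin n) - Fintype.card s) :=
        div_nonneg (Nat.cast_nonneg _) (by linarith)
      have h7 : ‖t‖ ≤ (((n * H) ^ n : ℕ) : ℝ) := by
        calc ‖t‖ ≤ _ := htn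
          _ ≤ (((n * H : ℕ) : ℝ)) ^ ((Fintype.card s : ℝ) /
                (Fintype.card (Fin n) - Fintype.card s)) :=
              Real.rpow_le_rpow (by positivity) h5 h6
          _ ≤ (((n * H : ℕ) : ℝ)) ^ (n : ℝ) := Real.rpow_le_rpow_of_exponent_le hbase h2
          _ = _ := by rw [Real.rpow_natCast]; push_cast; ring
      have h8 := h1.trans h7
      exact_mod_cast h8
  obtain ⟨e, he0, hes, hej⟩ := hex
  refine ⟨e, he0, fun i => ?_, hej⟩
  have hvan2 : ∀ y ∈ Submodule.span ℝ (r '' s), y ⬝ᵥ (fun j => (e j : ℝ)) = 0 := by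
    intro y hy
    induction hy using Submodule.span_induction with
    | mem y hy =>
      obtain ⟨i, hi, rfl⟩ := hy
      have := hes ⟨i, hi⟩
      show ∑ j, (N i j : ℝ) * (e j : ℝ) = 0
      exact_mod_cast this
    | zero => simp
    | add y z _ _ h1 h2 => rw [add_dotProduct, h1, h2, add_zero]
    | smul t y _ h => rw [smul_dotProduct, h, smul_zero]
  have h1 := hvan2 (r i) (hspan ⟨i, trivial, rfl⟩)
  have h2 : ∑ j, (N i j : ℝ) * (e j : ℝ) = 0 := h1
  exact_mod_cast h2

end Pool.Agent.N588.TD
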