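import Pool.Agent.N588.TD.Lp
import Pool.Agent.N588.TD.Ker

set_option autoImplicit false

/-!
# Generic start objectives
-/

namespace Pool.Agent.N588.TD

open Module Set Filter Topology Matrix
open Pool.Agent.N477.MD Pool.Agent.N477.RS

variable {m n : ℕ}

/-- if `z` is not generic, then it vanishes on a nonzero space given by rows and `c` -/
theorem not_gen {ι : Type*} [Finite ι] {a : ι → Fin n → ℝ} {b : ι → ℝ} {c z : Fin n → ℝ}
    (h : ¬ Gen1 (Poly a b) c z) :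
    ∃ I : Set ι, (∃ x : Fin n → ℝ, x ≠ 0 ∧ (∀ p ∈ I, a p ⬝ᵥ x = 0) ∧ c ⬝ᵥ x = 0) ∧
      ∀ e : Fin n → ℝ, (∀ p ∈ I, a p ⬝ᵥ e = 0) → c ⬝ᵥ e = 0 → z ⬝ᵥ e = 0 := by
  unfold Gen1 at h
  push Not at h
  obtain ⟨t, ht, x, y, hx, hy, hc, hxy⟩ := h
  set q : Fin n → ℝ := (1/2 : ℝ) • x + (1/2 : ℝ) • y with hq
  have hqP : MaxAt (Poly a b) (z + t • c) q := by
    refine ⟨convex_poly hx.1 hy.1 (by norm_num) (by norm_num) (by norm_num), fun u hu => ?_⟩
    rw [hq, dotProduct_add, dotProduct_smul, dotProduct_smul, smul_eq_mul, smul_eq_mul]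
    have h1 := hx.2 u hu
    have h2 := hy.2 u hu
    linarith
  have htq : ∀ p ∈ tight a b q, a p ⬝ᵥ x = b p ∧ a p ⬝ᵥ y = b p := by
    intro p hp
    have hp' : a p ⬝ᵥ q = b p := hp
    rw [hq, dotProduct_add, dotProduct_smul, dotProduct_smul, smul_eq_mul, smul_eq_mul] at hp'
    have h1 := hx.1 p
    have h2 := hy.1 p
    constructor <;> linarith
  refine ⟨tight a b q, ⟨x - y, sub_ne_zero.2 hxy, fun p hp => ?_, ?_⟩, fun e he hce => ?_⟩
  · rw [dotProduct_sub, (htq p hp).1, (htq p hp).2, sub_self]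
  · rw [dotProduct_sub, hc, sub_self]
  · obtain ⟨s1, hs1, hin1⟩ := step_in hqP.1 (e := e) (fun j hj => (he j hj).le)
    obtain ⟨s2, hs2, hin2⟩ := step_in hqP.1 (e := -e) (fun j hj => by
      rw [dotProduct_neg, he j hj, neg_zero])
    have e1 := hqP.2 _ (hin1 s1 hs1.le le_rfl)
    have e2 := hqP.2 _ (hin2 s2 hs2.le le_rfl)
    rw [dotProduct_add, dotProduct_smul, smul_eq_mul] at e1 e2
    rw [dotProduct_neg] at e2
    have h3 : (z + t • c) ⬝ᵥ e ≤ 0 := by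
      by_contra hneg
      push Not at hneg
      have := mul_pos hs1 hneg
      linarith
    have h4 : 0 ≤ (z + t • c) ⬝ᵥ e := by
      by_contra hneg
      push Not at hneg
      have := mul_pos hs2 (neg_pos.2 hneg)
      linarith
    have h5 : (z + t • c) ⬝ᵥ e = 0 := le_antisymm h3 h4
    rw [add_dotProduct, smul_dotProduct, hce, smul_zero, add_zero] at h5
    exact h5

/-- **Almost all objectives are generic**: outside finitely many hyperplanes. -/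
theorem exists_hyp {ι : Type} [Fintype ι] (a : ι → Fin n → ℝ) (b : ι → ℝ) (c : Fin n → ℝ) :
    ∃ S : Finset (Fin n → ℝ), (∀ e ∈ S, e ≠ 0) ∧
      ∀ z : Fin n → ℝ, (∀ e ∈ S, z ⬝ᵥ e ≠ 0) → Gen1 (Poly a b) c z := by
  classical
  let bad : Set ι → Prop := fun I => ∃ x : Fin n → ℝ, x ≠ 0 ∧ (∀ p ∈ I, a p ⬝ᵥ x = 0) ∧ c ⬝ᵥ x = 0
  let f : Set ι → Fin n → ℝ := fun I => if h : bad I then h.choose else 0
  have hf : ∀ I, bad I → f I ≠ 0 ∧ (∀ p ∈ I, a p ⬝ᵥ f I = 0) ∧ c ⬝ᵥ f I = 0 := by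
    intro I hI
    have e : f I = hI.choose := dif_pos hI
    rw [e]
    exact hI.choose_spec
  refine ⟨(Finset.univ.filter bad).image f, ?_, ?_⟩
  · intro e he
    rw [Finset.mem_image] at he
    obtain ⟨I, hI, rfl⟩ := he
    exact (hf I (Finset.mem_filter.1 hI).2).1
  · intro z hz
    by_contra hg
    obtain ⟨I, hI, hI2⟩ := not_gen hg
    obtain ⟨h1, h2, h3⟩ := hf I hI
    exact hz (f I) (Finset.mem_image.2 ⟨I, Finset.mem_filter.2 ⟨Finset.mem_univ _, hI⟩, rfl⟩)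
      (hI2 (f I) h2 h3)

/-- at every vertex there are objectives off finitely many hyperplanes for which it is optimal -/
theorem exists_obj {ι : Type} [Fintype ι] {a : ι → Fin n → ℝ} {b : ι → ℝ} {v : Fin n → ℝ}
    (hv : v ∈ (Poly a b).extremePoints ℝ) (S : Finset (Fin n → ℝ)) (hS : ∀ e ∈ S, e ≠ 0) :
    ∃ z : Fin n → ℝ, MaxAt (Poly a b) z v ∧ ∀ e ∈ S, z ⬝ᵥ e ≠ 0 := by
  classical
  obtain ⟨B, hBT, -, hB⟩ := exists_basis a (T := tight a b v) (fun x hx => ext_pointed hv hx)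
  let P : (Fin n → ℝ) → Polynomial ℝ := fun e =>
    ∑ k : Fin n, Polynomial.C (a (B k) ⬝ᵥ e) * Polynomial.X ^ (k : ℕ)
  have hP0 : ∀ e ∈ S, P e ≠ 0 := by
    intro e he h0
    apply hS e he
    apply eq_zero_of_basis hB
    intro k
    have h1 : (P e).coeff k = a (B k) ⬝ᵥ e := by
      simp only [P, Polynomial.finsetSum_coeff, Polynomial.coeff_C_mul_X_pow]
      rw [Finset.sum_eq_single k]
      · simp
      · intro j _ hj
        rw [if_neg]
        intro h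
        exact hj (Fin.ext h.symm)
      · intro h; exact absurd (Finset.mem_univ _) h
    rw [← h1, h0, Polynomial.coeff_zero]
  have hfin : (⋃ e ∈ S, {q : ℝ | (P e).eval q = 0}).Finite := by
    refine Set.Finite.biUnion S.finite_toSet fun e he => ?_
    exact Polynomial.finite_setOfPred_isRoot (hP0 e he)
  obtain ⟨q, hq0, hq⟩ : ∃ q : ℝ, 0 < q ∧ q ∉ ⋃ e ∈ S, {q : ℝ | (P e).eval q = 0} := by
    by_contra hcon
    push Not at hcon
    exact (Set.Ioi_infinite (0:ℝ)).mono (fun q hq => hcon q hq) hfin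
  refine ⟨zz a B 0 (fun k => q ^ (k : ℕ)), ?_, fun e he h => hq ?_⟩
  · exact maxAt_zz hv.1 hBT fun k => by
      rw [Pi.zero_apply, zero_add]; positivity
  · rw [Set.mem_iUnion₂]
    refine ⟨e, he, ?_⟩
    show (P e).eval q = 0
    rw [← h, zz_dot]
    simp only [P, Polynomial.eval_finsetSum, Polynomial.eval_mul, Polynomial.eval_C,
      Polynomial.eval_pow, Polynomial.eval_X, Pi.zero_apply, zero_add]
    exact Finset.sum_congr rfl fun k _ => mul_comm _ _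

/-- generic weights for integral data -/
theorem gen_int {A : Fin m → Fin n → ℝ} {b : Fin m → ℝ} {c : Fin n → ℝ} {D Dc : ℕ}
    (hD : 0 < D) (hDc : 0 < Dc) {AZ : Fin m → Fin n → ℤ} {cZ : Fin n → ℤ}
    (hAZ : ∀ i j, (AZ i j : ℝ) = D * A i j) (hcZ : ∀ j, (cZ j : ℝ) = Dc * c j) {H : ℕ}
    (hHA : ∀ i j, |AZ i j| ≤ H) (hHc : ∀ j, |cZ j| ≤ H) (hHD : D ≤ H)
    {B : Fin n → Fin m ⊕ Fin n} (hB : LinearIndependent ℝ (fun k => arow A (B k)))
    {w : Fin n → ℝ} (hw : ∀ β : Fin n → ℤ, β ≠ 0 → (∀ k, |β k| ≤ (n * H * (n * H) ^ n : ℕ)) →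
      ∑ k, w k * (β k : ℝ) ≠ 0) :
    Gen1 (Poly (arow A) (arhs b)) c (zz (arow A) B 0 w) := by
  classical
  by_contra hg
  obtain ⟨I, ⟨x, hx0, hxI, hxc⟩, hI⟩ := not_gen hg
  have hH1 : 1 ≤ H := le_trans hD hHD
  -- the integral rows
  let rZ : Fin m ⊕ Fin n → Fin n → ℤ := Sum.elim AZ (fun j => Pi.single j (-(D:ℤ)))
  have hrZ : ∀ p j, (rZ p j : ℝ) = D * arow A p j := by
    rintro (i | i) j
    · exact hAZ i j
    · by_cases h : j = i
      · subst h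
        simp [rZ, arow]
      · simp only [rZ, arow, Sum.elim_inr, Pi.neg_apply]
        rw [Pi.single_eq_of_ne h, Pi.single_eq_of_ne h]
        simp
  have hrH : ∀ p j, |rZ p j| ≤ H := by
    rintro (i | i) j
    · exact hHA i j
    · by_cases h : j = i
      · subst h
        simp only [rZ, Sum.elim_inr, Pi.single_eq_same, abs_neg]
        rw [abs_of_nonneg (Int.natCast_nonneg D)]
        exact_mod_cast hHD
      · simp only [rZ, Sum.elim_inr]
        rw [Pi.single_eq_of_ne h, abs_zero]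
        exact Int.natCast_nonneg _
  let N : Option {p // p ∈ I} → Fin n → ℤ := fun o => o.elim cZ (fun p => rZ p.1)
  have hDR : (0:ℝ) < D := by exact_mod_cast hD
  have hDcR : (0:ℝ) < Dc := by exact_mod_cast hDc
  have hrdot : ∀ p (y : Fin n → ℝ), ∑ j, (rZ p j : ℝ) * y j = D * (arow A p ⬝ᵥ y) := by
    intro p y
    simp only [hrZ, dotProduct, Finset.mul_sum]
    exact Finset.sum_congr rfl fun j _ => by ring
  have hcdot : ∀ (y : Fin n → ℝ), ∑ j, (cZ j : ℝ) * y j = Dc * (c ⬝ᵥ y) := by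
    intro y
    simp only [hcZ, dotProduct, Finset.mul_sum]
    exact Finset.sum_congr rfl fun j _ => by ring
  obtain ⟨e, he0, heN, heH⟩ := int_kernel N hH1 (by
    rintro (_ | p) j
    · exact hHc j
    · exact hrH p.1 j) hx0 (by
    rintro (_ | p)
    · show ∑ j, (cZ j : ℝ) * x j = 0
      rw [hcdot, hxc, mul_zero]
    · show ∑ j, (rZ p.1 j : ℝ) * x j = 0
      rw [hrdot, hxI p.1 p.2, mul_zero])
  let eR : Fin n → ℝ := fun j => (e j : ℝ)
  have hcast : ∀ r : Fin n → ℤ, ((∑ j, r j * e j : ℤ) : ℝ) = ∑ j, (r j : ℝ) * eR j := by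
    intro r
    push_cast
    rfl
  have hzero := hI eR (fun p hp => by
    have h1 := heN (some ⟨p, hp⟩)
    have h2 : ((∑ j, rZ p j * e j : ℤ) : ℝ) = 0 := by
      have : ∑ j, rZ p j * e j = 0 := h1
      rw [this]; simp
    rw [hcast, hrdot] at h2
    exact (mul_eq_zero.1 h2).resolve_left hDR.ne') (by
    have h1 := heN none
    have h2 : ((∑ j, cZ j * e j : ℤ) : ℝ) = 0 := by
      have : ∑ j, cZ j * e j = 0 := h1
      rw [this]; simp
    rw [hcast, hcdot] at h2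
    exact (mul_eq_zero.1 h2).resolve_left hDcR.ne')
  -- the coefficients
  let β : Fin n → ℤ := fun k => ∑ j, rZ (B k) j * e j
  have hβR : ∀ k, (β k : ℝ) = D * (arow A (B k) ⬝ᵥ eR) := by
    intro k
    rw [hcast, hrdot]
  have hβ0 : β ≠ 0 := by
    intro h
    apply he0
    have h1 : eR = 0 := by
      apply eq_zero_of_basis hB
      intro k
      have h2 := hβR k
      rw [h] at h2
      have h3 : (D:ℝ) * (arow A (B k) ⬝ᵥ eR) = 0 := by rw [← h2]; simp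
      exact (mul_eq_zero.1 h3).resolve_left hDR.ne'
    funext j
    have := congrFun h1 j
    have h2 : (e j : ℝ) = 0 := this
    exact_mod_cast h2
  refine hw β hβ0 (fun k => ?_) ?_
  · calc |β k| ≤ ∑ j, |rZ (B k) j * e j| := Finset.abs_sum_le_sum_abs _ _
      _ ≤ ∑ _j : Fin n, (H : ℤ) * ((n * H) ^ n : ℕ) := by
          refine Finset.sum_le_sum fun j _ => ?_
          rw [abs_mul]
          exact mul_le_mul (hrH _ _) (heH j) (abs_nonneg _) (Int.natCast_nonneg _)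
      _ = _ := by
          rw [Finset.sum_const, Finset.card_univ, Fintype.card_fin]
          push_cast
          ring
  · rw [zz_dot] at hzero
    have : ∑ k, w k * (β k : ℝ) = D * ∑ k, ((0 : Fin n → ℝ) k + w k) * (arow A (B k) ⬝ᵥ eR) := by
      rw [Finset.mul_sum]
      refine Finset.sum_congr rfl fun k _ => ?_
      rw [hβR, Pi.zero_apply, zero_add]
      ring
    rw [this, hzero, mul_zero]

/-- the weights `q ^ L + q ^ k` are generic -/
theorem weights {n L q H : ℕ} (hnL : n ≤ L) (hq : H < q) (β : Fin n → ℤ) (hβ : β ≠ 0)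
    (hH : ∀ k, |β k| ≤ H) : ∑ k : Fin n, (1 + ((q ^ (k : ℕ) : ℕ) : ℝ) / ((q ^ L : ℕ) : ℝ)) *
      (β k : ℝ) ≠ 0 := by
  classical
  have hq0 : 0 < q := by omega
  -- the first nonzero coefficient
  obtain ⟨k0, hk0⟩ : ∃ k, β k ≠ 0 := by
    by_contra hcon
    push Not at hcon
    exact hβ (funext hcon)
  obtain ⟨k1, hk1, hmin⟩ := Finset.exists_min_image (Finset.univ.filter fun k => β k ≠ 0)
    (fun k : Fin n => (k : ℕ)) ⟨k0, by simp [hk0]⟩
  have hk1' : β k1 ≠ 0 := (Finset.mem_filter.1 hk1).2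
  intro h0
  have hqL : ((q ^ L : ℕ) : ℝ) ≠ 0 := by
    have : 0 < q ^ L := by positivity
    exact_mod_cast this.ne'
  have h1 : ∑ k : Fin n, ((q:ℤ) ^ L + (q:ℤ) ^ (k:ℕ)) * β k = 0 := by
    have h2 : ((q ^ L : ℕ) : ℝ) * ∑ k : Fin n,
        (1 + ((q ^ (k : ℕ) : ℕ) : ℝ) / ((q ^ L : ℕ) : ℝ)) * (β k : ℝ) = 0 := by
      rw [h0, mul_zero]
    rw [Finset.mul_sum] at h2
    have h3 : ∀ k : Fin n, ((q ^ L : ℕ) : ℝ) *
        ((1 + ((q ^ (k : ℕ) : ℕ) : ℝ) / ((q ^ L : ℕ) : ℝ)) * (β k : ℝ)) =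
        ((((q:ℤ) ^ L + (q:ℤ) ^ (k:ℕ)) * β k : ℤ) : ℝ) := by
      intro k
      push_cast at hqL ⊢
      field_simp
    rw [Finset.sum_congr rfl fun k _ => h3 k] at h2
    exact_mod_cast h2
  have hdvd : ∀ k : Fin n, k ≠ k1 → (q:ℤ) ^ ((k1:ℕ) + 1) ∣ ((q:ℤ) ^ L + (q:ℤ) ^ (k:ℕ)) * β k := by
    intro k hk
    by_cases hb : β k = 0
    · rw [hb, mul_zero]; exact dvd_zero _
    · have h2 := hmin k (Finset.mem_filter.2 ⟨Finset.mem_univ _, hb⟩)
      have h3 : (k1 : ℕ) < k := lt_of_le_of_ne h2 fun h => hk (Fin.ext h.symm)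
      have h4 := k.2
      exact Dvd.dvd.mul_right (dvd_add (pow_dvd_pow _ (by omega)) (pow_dvd_pow _ (by omega))) _
  have hd1 : (q:ℤ) ^ ((k1:ℕ) + 1) ∣ ((q:ℤ) ^ L + (q:ℤ) ^ (k1:ℕ)) * β k1 := by
    rw [← Finset.add_sum_erase _ _ (Finset.mem_univ k1)] at h1
    have h2 : ((q:ℤ) ^ L + (q:ℤ) ^ (k1:ℕ)) * β k1 =
        - ∑ k ∈ Finset.univ.erase k1, ((q:ℤ) ^ L + (q:ℤ) ^ (k:ℕ)) * β k := by linarith
    rw [h2]
    exact (Finset.dvd_sum fun k hk => hdvd k (Finset.ne_of_mem_erase hk)).neg_right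
  have hd2 : (q:ℤ) ^ ((k1:ℕ) + 1) ∣ (q:ℤ) ^ (k1:ℕ) * β k1 := by
    have h2 : (q:ℤ) ^ (k1:ℕ) * β k1 = ((q:ℤ) ^ L + (q:ℤ) ^ (k1:ℕ)) * β k1 - (q:ℤ) ^ L * β k1 := by
      ring
    rw [h2]
    have := k1.2
    exact dvd_sub hd1 (Dvd.dvd.mul_right (pow_dvd_pow _ (by omega)) _)
  have hd3 : (q:ℤ) ∣ β k1 := by
    rw [pow_succ] at hd2
    have hne : (q:ℤ) ^ (k1:ℕ) ≠ 0 := by positivity
    exact (mul_dvd_mul_iff_left hne).1 hd2
  have h5 := Int.le_of_dvd (abs_pos.2 hk1') ((dvd_abs _ _).2 hd3)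
  have h6 := hH k1
  have h7 : (H:ℤ) < q := by exact_mod_cast hq
  linarith

end Pool.Agent.N588.TD
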