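import Pool.Agent.N588.TD.Mmx

set_option autoImplicit false

/-!
# Saddle values of bilinear functions on cubes
-/

namespace Pool.Agent.N588.TD

open Set Filter Topology

/-- the unit cube -/
def cub (X : Type) : Set (X → ℝ) := {x | ∀ j, 0 ≤ x j ∧ x j ≤ 1}

/-- the bilinear function -/
def Phi {R X : Type} (A : R → X → ℝ) (rs : Finset R) (xs : Finset X) (b : R → ℝ) (g : X → ℝ)
    (x : X → ℝ) (y : R → ℝ) : ℝ :=
  ∑ j ∈ xs, g j * x j + ∑ r ∈ rs, b r * y r - ∑ r ∈ rs, ∑ j ∈ xs, y r * A r j * x j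

/-- `v` is the saddle value -/
def IsVal {R X : Type} (A : R → X → ℝ) (rs : Finset R) (xs : Finset X) (b : R → ℝ) (g : X → ℝ)
    (v : ℝ) : Prop :=
  ∃ x ∈ cub X, ∃ y ∈ cub R, (∀ y' ∈ cub R, v ≤ Phi A rs xs b g x y') ∧
    ∀ x' ∈ cub X, Phi A rs xs b g x' y ≤ v

variable {R X : Type} {A : R → X → ℝ} {rs : Finset R} {xs : Finset X} {b : R → ℝ} {g : X → ℝ}

/-- the transposed negative matrix -/
def neg' (A : R → X → ℝ) : X → R → ℝ := fun j r => - A r j

theorem Phi_swap (x : X → ℝ) (y : R → ℝ) :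
    Phi (neg' A) xs rs (-g) (-b) y x = - Phi A rs xs b g x y := by
  unfold Phi neg'
  rw [Finset.sum_comm]
  have e1 : ∑ j ∈ rs, (-b) j * y j = - ∑ r ∈ rs, b r * y r := by
    rw [← Finset.sum_neg_distrib]
    exact Finset.sum_congr rfl fun r _ => by simp
  have e2 : ∑ r ∈ xs, (-g) r * x r = - ∑ j ∈ xs, g j * x j := by
    rw [← Finset.sum_neg_distrib]
    exact Finset.sum_congr rfl fun r _ => by simp
  have e3 : ∑ y_1 ∈ rs, ∑ x_1 ∈ xs, x x_1 * -A y_1 x_1 * y y_1 =
      - ∑ r ∈ rs, ∑ j ∈ xs, y r * A r j * x j := by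
    rw [← Finset.sum_neg_distrib]
    refine Finset.sum_congr rfl fun r _ => ?_
    rw [← Finset.sum_neg_distrib]
    exact Finset.sum_congr rfl fun j _ => by ring
  rw [e1, e2, e3]
  ring

theorem Phi_x (x : X → ℝ) (y : R → ℝ) : Phi A rs xs b g x y =
    ∑ r ∈ rs, b r * y r + ∑ j ∈ xs, (g j - ∑ r ∈ rs, y r * A r j) * x j := by
  unfold Phi
  rw [Finset.sum_comm]
  have e : ∑ j ∈ xs, (g j - ∑ r ∈ rs, y r * A r j) * x j =
      ∑ j ∈ xs, g j * x j - ∑ j ∈ xs, ∑ r ∈ rs, y r * A r j * x j := by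
    rw [← Finset.sum_sub_distrib]
    refine Finset.sum_congr rfl fun j _ => ?_
    rw [sub_mul, Finset.sum_mul]
  rw [e]
  ring

theorem Phi_lin (x x' : X → ℝ) (y : R → ℝ) (s t : ℝ) (h : s + t = 1) :
    Phi A rs xs b g (fun j => s * x j + t * x' j) y =
      s * Phi A rs xs b g x y + t * Phi A rs xs b g x' y := by
  rw [Phi_x, Phi_x, Phi_x, mul_add, mul_add, Finset.mul_sum (s := xs), Finset.mul_sum (s := xs)]
  have e : ∑ j ∈ xs, (g j - ∑ r ∈ rs, y r * A r j) * (s * x j + t * x' j) =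
      ∑ j ∈ xs, s * ((g j - ∑ r ∈ rs, y r * A r j) * x j) +
      ∑ j ∈ xs, t * ((g j - ∑ r ∈ rs, y r * A r j) * x' j) := by
    rw [← Finset.sum_add_distrib]
    exact Finset.sum_congr rfl fun j _ => by ring
  rw [e]
  have e2 : (∑ r ∈ rs, b r * y r) = s * (∑ r ∈ rs, b r * y r) + t * (∑ r ∈ rs, b r * y r) := by
    rw [← add_mul, h, one_mul]
  linarith

/-- the vertices of the cube -/
def vtx (i : X → Bool) : X → ℝ := fun j => if i j then 1 else 0

theorem vtx_mem (i : X → Bool) : vtx i ∈ cub X := by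
  intro j
  unfold vtx
  split_ifs <;> norm_num

theorem exists_vtx_le (y : R → ℝ) : ∃ i : X → Bool, ∀ x ∈ cub X,
    Phi A rs xs b g x y ≤ Phi A rs xs b g (vtx i) y := by
  classical
  refine ⟨fun j => decide (0 < g j - ∑ r ∈ rs, y r * A r j), fun x hx => ?_⟩
  rw [Phi_x, Phi_x]
  refine add_le_add_right (Finset.sum_le_sum fun j _ => ?_) _
  unfold vtx
  by_cases h : 0 < g j - ∑ r ∈ rs, y r * A r j
  · simp only [h, decide_true, if_true]
    rw [mul_one]
    have := mul_le_mul_of_nonneg_left (hx j).2 h.le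
    linarith
  · simp only [h, decide_false]
    push Not at h
    have := mul_nonpos_of_nonpos_of_nonneg h (hx j).1
    simpa using this

theorem exists_vtx_ge (x : X → ℝ) : ∃ i : R → Bool, ∀ y ∈ cub R,
    Phi A rs xs b g x (vtx i) ≤ Phi A rs xs b g x y := by
  obtain ⟨i, hi⟩ := exists_vtx_le (A := neg' A) (rs := xs) (xs := rs) (b := -g) (g := -b) x
  refine ⟨i, fun y hy => ?_⟩
  have := hi y hy
  rw [Phi_swap, Phi_swap] at this
  linarith

theorem convex_cub : Convex ℝ (cub X) := by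
  intro x hx y hy s t hs ht hst j
  have h1 := mul_le_mul_of_nonneg_left (hx j).2 hs
  have h2 := mul_le_mul_of_nonneg_left (hy j).2 ht
  have h3 := mul_nonneg hs (hx j).1
  have h4 := mul_nonneg ht (hy j).1
  simp only [Pi.add_apply, Pi.smul_apply, smul_eq_mul]
  constructor <;> linarith

theorem compact_cub : IsCompact (cub X) := by
  have h : cub X = Icc (fun _ => (0:ℝ)) (fun _ => 1) := by
    ext x
    constructor
    · intro h
      exact ⟨fun j => (h j).1, fun j => (h j).2⟩
    · rintro ⟨h1, h2⟩ j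
      exact ⟨h1 j, h2 j⟩
  rw [h]
  exact isCompact_Icc

theorem cont_x (y : R → ℝ) : Continuous (fun x : X → ℝ => Phi A rs xs b g x y) := by
  unfold Phi
  fun_prop

theorem cont_y (x : X → ℝ) : Continuous (fun y : R → ℝ => Phi A rs xs b g x y) := by
  unfold Phi
  fun_prop

/-- **Existence of the saddle value.** -/
theorem exists_val [Fintype R] [Fintype X] (A : R → X → ℝ) (rs : Finset R) (xs : Finset X)
    (b : R → ℝ) (g : X → ℝ) : ∃ v, IsVal A rs xs b g v := by
  classical
  have hne : ∀ Z : Type, (cub Z).Nonempty := fun Z => ⟨fun _ => 0, fun _ => by norm_num⟩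
  -- the best `y`
  let M : (R → ℝ) → ℝ := fun y => Finset.univ.sup' ⟨fun _ => true, Finset.mem_univ _⟩
    (fun i : X → Bool => Phi A rs xs b g (vtx i) y)
  have hM : ∀ y, ∀ x ∈ cub X, Phi A rs xs b g x y ≤ M y := by
    intro y x hx
    obtain ⟨i, hi⟩ := exists_vtx_le (A := A) (rs := rs) (xs := xs) (b := b) (g := g) y
    exact (hi x hx).trans (Finset.le_sup' (f := fun i : X → Bool => Phi A rs xs b g (vtx i) y)
      (Finset.mem_univ i))
  have hM' : ∀ y, ∃ x ∈ cub X, M y = Phi A rs xs b g x y := by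
    intro y
    obtain ⟨i, -, hi⟩ := Finset.exists_mem_eq_sup' (s := Finset.univ)
      ⟨fun _ => true, Finset.mem_univ _⟩ (fun i : X → Bool => Phi A rs xs b g (vtx i) y)
    exact ⟨vtx i, vtx_mem i, hi⟩
  have hMc : Continuous M := Continuous.finset_sup'_apply _ fun i _ => cont_y (vtx i)
  let N : (X → ℝ) → ℝ := fun x => Finset.univ.inf' ⟨fun _ => true, Finset.mem_univ _⟩
    (fun i : R → Bool => Phi A rs xs b g x (vtx i))
  have hN : ∀ x, ∀ y ∈ cub R, N x ≤ Phi A rs xs b g x y := by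
    intro x y hy
    obtain ⟨i, hi⟩ := exists_vtx_ge (A := A) (rs := rs) (xs := xs) (b := b) (g := g) x
    exact (Finset.inf'_le (f := fun i : R → Bool => Phi A rs xs b g x (vtx i))
      (Finset.mem_univ i)).trans (hi y hy)
  have hNc : Continuous N := Continuous.finset_inf'_apply _ fun i _ => cont_x (vtx i)
  obtain ⟨y0, hy0, hmin⟩ := compact_cub.exists_isMinOn (hne R) hMc.continuousOn
  obtain ⟨x0, hx0, hmax⟩ := compact_cub.exists_isMaxOn (hne X) hNc.continuousOn
  refine ⟨M y0, x0, hx0, y0, hy0, fun y' hy' => ?_, fun x' hx' => hM y0 x' hx'⟩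
  refine le_trans ?_ (hN x0 y' hy')
  refine le_of_forall_pos_sub_le fun ε hε => ?_
  obtain ⟨p, hp, hpi⟩ := minimax (Φ := R → Bool) (cub X) convex_cub
    (fun i x => Phi A rs xs b g x (vtx i)) (fun i => by
      refine ⟨convex_cub, fun x _ x' _ s t _ _ hst => ?_⟩
      have h := Phi_lin (A := A) (rs := rs) (xs := xs) (b := b) (g := g) x x' (vtx i) s t hst
      simp only [smul_eq_mul]
      rw [← h]
      exact le_of_eq rfl) (M y0) (fun l hl hsum => by
      set y : R → ℝ := fun r => ∑ i, l i * vtx i r with hy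
      have hyc : y ∈ cub R := by
        intro r
        constructor
        · exact Finset.sum_nonneg fun i _ => mul_nonneg (hl i) (vtx_mem i r).1
        · calc y r ≤ ∑ i, l i * 1 :=
                Finset.sum_le_sum fun i _ => mul_le_mul_of_nonneg_left (vtx_mem i r).2 (hl i)
            _ = 1 := by simp [hsum]
      obtain ⟨x, hx, hxy⟩ := hM' y
      refine ⟨x, hx, ?_⟩
      have h1 : M y0 ≤ M y := hmin hyc
      rw [hxy] at h1
      refine h1.trans (le_of_eq ?_)
      -- linearity in `y`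
      have hlin : ∀ y : R → ℝ, Phi A rs xs b g x y =
          ∑ j ∈ xs, g j * x j + ∑ r ∈ rs, (b r - ∑ j ∈ xs, A r j * x j) * y r := by
        intro y
        unfold Phi
        have e : ∑ r ∈ rs, (b r - ∑ j ∈ xs, A r j * x j) * y r =
            ∑ r ∈ rs, b r * y r - ∑ r ∈ rs, ∑ j ∈ xs, y r * A r j * x j := by
          rw [← Finset.sum_sub_distrib]
          refine Finset.sum_congr rfl fun r _ => ?_
          rw [sub_mul, Finset.sum_mul]
          congr 1
          exact Finset.sum_congr rfl fun j _ => by ring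
        rw [e]
        ring
      simp_rw [hlin]
      simp_rw [mul_add]
      rw [Finset.sum_add_distrib, ← Finset.sum_mul, hsum, one_mul]
      congr 1
      rw [hy]
      simp_rw [Finset.mul_sum]
      rw [Finset.sum_comm]
      refine Finset.sum_congr rfl fun i _ => Finset.sum_congr rfl fun r _ => ?_
      ring) ε hε
  have h1 : M y0 - ε ≤ N p := Finset.le_inf' _ _ fun i _ => hpi i
  exact h1.trans (hmax hp)

theorem IsVal.unique {v w : ℝ} (hv : IsVal A rs xs b g v) (hw : IsVal A rs xs b g w) : v = w := by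
  obtain ⟨x, hx, y, hy, h1, h2⟩ := hv
  obtain ⟨x', hx', y', hy', h1', h2'⟩ := hw
  exact le_antisymm ((h1 y' hy').trans (h2' x hx)) ((h1' y hy).trans (h2 x' hx'))

/-- the saddle value -/
noncomputable def val [Fintype R] [Fintype X] (A : R → X → ℝ) (rs : Finset R) (xs : Finset X)
    (b : R → ℝ) (g : X → ℝ) : ℝ := (exists_val A rs xs b g).choose

theorem val_spec [Fintype R] [Fintype X] (A : R → X → ℝ) (rs : Finset R) (xs : Finset X)
    (b : R → ℝ) (g : X → ℝ) : IsVal A rs xs b g (val A rs xs b g) :=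
  (exists_val A rs xs b g).choose_spec

theorem val_eq [Fintype R] [Fintype X] {v : ℝ} (h : IsVal A rs xs b g v) :
    val A rs xs b g = v := (val_spec A rs xs b g).unique h

theorem IsVal.swap {v : ℝ} (h : IsVal A rs xs b g v) : IsVal (neg' A) xs rs (-g) (-b) (-v) := by
  obtain ⟨x, hx, y, hy, h1, h2⟩ := h
  refine ⟨y, hy, x, hx, fun x' hx' => ?_, fun y' hy' => ?_⟩
  · rw [Phi_swap]
    exact neg_le_neg (h2 x' hx')
  · rw [Phi_swap]
    exact neg_le_neg (h1 y' hy')

theorem val_swap [Fintype R] [Fintype X] :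
    val (neg' A) xs rs (-g) (-b) = - val A rs xs b g :=
  val_eq (val_spec A rs xs b g).swap

/-- the value is concave in the right hand sides -/
theorem val_concave [Fintype R] [Fintype X] (A : R → X → ℝ) (rs : Finset R) (xs : Finset X)
    (b d : R → ℝ) (g : X → ℝ) :
    ConcaveOn ℝ univ (fun z : ℝ => val A rs xs (fun r => b r + z * d r) g) := by
  refine ⟨convex_univ, fun z1 _ z2 _ s t hs ht hst => ?_⟩
  obtain ⟨x1, hx1, y1, hy1, h11, h12⟩ := val_spec A rs xs (fun r => b r + z1 * d r) g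
  obtain ⟨x2, hx2, y2, hy2, h21, h22⟩ := val_spec A rs xs (fun r => b r + z2 * d r) g
  obtain ⟨x3, hx3, y3, hy3, h31, h32⟩ := val_spec A rs xs
    (fun r => b r + (s • z1 + t • z2) * d r) g
  have hmem : (fun j => s * x1 j + t * x2 j) ∈ cub X := convex_cub hx1 hx2 hs ht hst
  have h := h32 _ hmem
  refine le_trans ?_ h
  have e1 := mul_le_mul_of_nonneg_left (h11 y3 hy3) hs
  have e2 := mul_le_mul_of_nonneg_left (h21 y3 hy3) ht
  simp only [smul_eq_mul] at e1 e2 ⊢
  refine (add_le_add e1 e2).trans (le_of_eq ?_)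
  rw [Phi_lin _ _ _ _ _ hst]
  have hb : ∀ (z : ℝ) (x : X → ℝ), Phi A rs xs (fun r => b r + z * d r) g x y3 =
      Phi A rs xs b g x y3 + z * ∑ r ∈ rs, d r * y3 r := by
    intro z x
    unfold Phi
    have e : ∑ r ∈ rs, (b r + z * d r) * y3 r = ∑ r ∈ rs, b r * y3 r + z * ∑ r ∈ rs, d r * y3 r := by
      rw [Finset.mul_sum, ← Finset.sum_add_distrib]
      exact Finset.sum_congr rfl fun r _ => by ring
    rw [e]
    ring
  rw [hb, hb, hb, hb]
  have : s * (Phi A rs xs b g x1 y3) + t * (Phi A rs xs b g x2 y3) +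
      (s * z1 + t * z2) * (∑ r ∈ rs, d r * y3 r) =
      s * (Phi A rs xs b g x1 y3 + (s * z1 + t * z2) * ∑ r ∈ rs, d r * y3 r) +
      t * (Phi A rs xs b g x2 y3 + (s * z1 + t * z2) * ∑ r ∈ rs, d r * y3 r) := by
    have : (s * z1 + t * z2) * (∑ r ∈ rs, d r * y3 r) =
      (s + t) * ((s * z1 + t * z2) * (∑ r ∈ rs, d r * y3 r)) := by rw [hst, one_mul]
    linarith
  linarith

/-- the value of the empty system -/
theorem val_nil [Fintype R] [Fintype X] : val A ∅ ∅ b g = 0 := by
  refine val_eq ⟨fun _ => 0, fun _ => by norm_num, fun _ => 0, fun _ => by norm_num, ?_, ?_⟩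
  · intro y' _; simp [Phi]
  · intro y' _; simp [Phi]

theorem Phi_congr {x x' : X → ℝ} {y y' : R → ℝ} (hx : ∀ j ∈ xs, x j = x' j)
    (hy : ∀ r ∈ rs, y r = y' r) : Phi A rs xs b g x y = Phi A rs xs b g x' y' := by
  unfold Phi
  rw [Finset.sum_congr rfl fun j hj => by rw [hx j hj],
    Finset.sum_congr (g := fun r => b r * y' r) rfl fun r hr => by rw [hy r hr],
    Finset.sum_congr (g := fun r => ∑ j ∈ xs, y' r * A r j * x' j) rfl fun r hr =>
      Finset.sum_congr rfl fun j hj => by rw [hy r hr, hx j hj]]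

/-- the value of a union of blocks -/
theorem val_union [Fintype R] [Fintype X] [DecidableEq R] [DecidableEq X] {rs' : Finset R}
    {xs' : Finset X} (hr : Disjoint rs rs') (hx : Disjoint xs xs')
    (h1 : ∀ r ∈ rs, ∀ j ∈ xs', A r j = 0) (h2 : ∀ r ∈ rs', ∀ j ∈ xs, A r j = 0) :
    val A (rs ∪ rs') (xs ∪ xs') b g = val A rs xs b g + val A rs' xs' b g := by
  have hPhi : ∀ x y, Phi A (rs ∪ rs') (xs ∪ xs') b g x y =
      Phi A rs xs b g x y + Phi A rs' xs' b g x y := by
    intro x y
    unfold Phi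
    rw [Finset.sum_union hx, Finset.sum_union hr, Finset.sum_union hr]
    have e1 : ∑ r ∈ rs, ∑ j ∈ xs ∪ xs', y r * A r j * x j =
        ∑ r ∈ rs, ∑ j ∈ xs, y r * A r j * x j := by
      refine Finset.sum_congr rfl fun r hr' => ?_
      rw [Finset.sum_union hx, Finset.sum_eq_zero (s := xs') fun j hj => by
        rw [h1 r hr' j hj]; ring, add_zero]
    have e2 : ∑ r ∈ rs', ∑ j ∈ xs ∪ xs', y r * A r j * x j =
        ∑ r ∈ rs', ∑ j ∈ xs', y r * A r j * x j := by
      refine Finset.sum_congr rfl fun r hr' => ?_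
      rw [Finset.sum_union hx, Finset.sum_eq_zero (s := xs) fun j hj => by
        rw [h2 r hr' j hj]; ring, zero_add]
    rw [e1, e2]
    ring
  obtain ⟨x1, hx1, y1, hy1, h11, h12⟩ := val_spec A rs xs b g
  obtain ⟨x2, hx2, y2, hy2, h21, h22⟩ := val_spec A rs' xs' b g
  refine val_eq ⟨fun j => if j ∈ xs then x1 j else x2 j, fun j => ?_,
    fun r => if r ∈ rs then y1 r else y2 r, fun r => ?_, fun y' hy' => ?_, fun x' hx' => ?_⟩
  · dsimp only
    split_ifs
    · exact hx1 j
    · exact hx2 j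
  · dsimp only
    split_ifs
    · exact hy1 r
    · exact hy2 r
  · rw [hPhi]
    refine add_le_add ((h11 y' hy').trans (le_of_eq ?_)) ((h21 y' hy').trans (le_of_eq ?_))
    · exact Phi_congr (fun j hj => by simp [hj]) fun _ _ => rfl
    · exact Phi_congr (fun j hj => by
        have : j ∉ xs := Finset.disjoint_right.1 hx hj
        simp [this]) fun _ _ => rfl
  · rw [hPhi]
    refine add_le_add (le_trans (le_of_eq ?_) (h12 x' hx')) (le_trans (le_of_eq ?_) (h22 x' hx'))
    · exact Phi_congr (fun _ _ => rfl) fun r hr' => by simp [hr']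
    · exact Phi_congr (fun _ _ => rfl) fun r hr' => by
        have : r ∉ rs := Finset.disjoint_right.1 hr hr'
        simp [this]

/-- the value after adding a column -/
theorem val_col [Fintype R] [Fintype X] [DecidableEq X] {j0 : X} (hj : j0 ∉ xs) :
    ∃ u ∈ Icc (0:ℝ) 1, val A rs (insert j0 xs) b g =
        g j0 * u + val A rs xs (fun r => b r + u * (- A r j0)) g ∧
      ∀ z ∈ Icc (0:ℝ) 1, g j0 * z + val A rs xs (fun r => b r + z * (- A r j0)) g ≤
        val A rs (insert j0 xs) b g := by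
  have hPhi : ∀ x y, Phi A rs (insert j0 xs) b g x y =
      g j0 * x j0 + Phi A rs xs (fun r => b r + x j0 * (- A r j0)) g x y := by
    intro x y
    unfold Phi
    rw [Finset.sum_insert hj]
    have e1 : ∑ r ∈ rs, ∑ j ∈ insert j0 xs, y r * A r j * x j =
        ∑ r ∈ rs, y r * A r j0 * x j0 + ∑ r ∈ rs, ∑ j ∈ xs, y r * A r j * x j := by
      rw [← Finset.sum_add_distrib]
      exact Finset.sum_congr rfl fun r _ => by rw [Finset.sum_insert hj]
    have e2 : ∑ r ∈ rs, (b r + x j0 * (- A r j0)) * y r =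
        ∑ r ∈ rs, b r * y r - ∑ r ∈ rs, y r * A r j0 * x j0 := by
      rw [← Finset.sum_sub_distrib]
      exact Finset.sum_congr rfl fun r _ => by ring
    rw [e1, e2]
    ring
  obtain ⟨x, hx, y, hy, h1, h2⟩ := val_spec A rs (insert j0 xs) b g
  set V := val A rs (insert j0 xs) b g with hV
  have hupd : ∀ z ∈ Icc (0:ℝ) 1, ∀ x' ∈ cub X, Function.update x' j0 z ∈ cub X := by
    intro z hz x' hx' j
    by_cases h : j = j0
    · subst h; simpa using hz
    · rw [Function.update_of_ne h]; exact hx' j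
  have hPu : ∀ z, ∀ x' : X → ℝ, ∀ y', Phi A rs (insert j0 xs) b g (Function.update x' j0 z) y' =
      g j0 * z + Phi A rs xs (fun r => b r + z * (- A r j0)) g x' y' := by
    intro z x' y'
    rw [hPhi]
    simp only [Function.update_self]
    congr 1
    refine Phi_congr (fun j hj' => ?_) fun _ _ => rfl
    rw [Function.update_of_ne]
    rintro rfl
    exact hj hj'
  refine ⟨x j0, hx j0, ?_, fun z hz => ?_⟩
  · have : val A rs xs (fun r => b r + x j0 * (- A r j0)) g = V - g j0 * x j0 := by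
      refine val_eq ⟨x, hx, y, hy, fun y' hy' => ?_, fun x' hx' => ?_⟩
      · have := h1 y' hy'
        rw [hPhi] at this
        linarith
      · have := h2 _ (hupd (x j0) (hx j0) x' hx')
        rw [hPu] at this
        linarith
    rw [this]
    ring
  · obtain ⟨x', hx', y', hy', h1', h2'⟩ := val_spec A rs xs (fun r => b r + z * (- A r j0)) g
    have e1 := h1' y hy
    have e2 := h2 _ (hupd z hz x' hx')
    rw [hPu] at e2
    linarith

/-- the value after adding a row -/
theorem val_row [Fintype R] [Fintype X] [DecidableEq R] {r0 : R} (hr : r0 ∉ rs) :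
    ∃ u ∈ Icc (0:ℝ) 1, - val A (insert r0 rs) xs b g =
        (- b r0) * u + - val A rs xs b (fun j => g j + u * (- A r0 j)) ∧
      ∀ z ∈ Icc (0:ℝ) 1, (- b r0) * z + - val A rs xs b (fun j => g j + z * (- A r0 j)) ≤
        - val A (insert r0 rs) xs b g := by
  have h := val_col (A := neg' A) (rs := xs) (xs := rs) (b := -g) (g := -b) hr
  have e : ∀ z : ℝ, val (neg' A) xs rs (fun j => (-g) j + z * (- neg' A j r0)) (-b) =
      - val A rs xs b (fun j => g j + z * (- A r0 j)) := by
    intro z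
    rw [← val_swap]
    congr 1
    funext j
    simp only [Pi.neg_apply, neg']
    ring
  simp only [e] at h
  rw [val_swap] at h
  exact h

end Pool.Agent.N588.TD
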