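import Pool.Agent.N588.TD.Col
import Pool.Agent.N588.TD.Sad

set_option autoImplicit false

/-!
# Matrices of bounded incidence treedepth: the saddle value has few pieces
-/

namespace Pool.Agent.N588.TD

open Module Set

/-- The block of the matrix `A` with the rows `rs` and the columns `xs` has incidence treedepth at
most `D`: it is empty, or it is a union of two such blocks without common rows and columns whose
mixed entries are zero, or one of its rows or columns can be removed and the rest has treedepth at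
most `D - 1`. -/
inductive Nested {R X : Type} [DecidableEq R] [DecidableEq X] (A : R → X → ℝ) :
    ℕ → Finset R → Finset X → Prop
  | nil (D : ℕ) : Nested A D ∅ ∅
  | union {D : ℕ} {rs rs' : Finset R} {xs xs' : Finset X} (hr : Disjoint rs rs')
      (hx : Disjoint xs xs') (h1 : ∀ r ∈ rs, ∀ j ∈ xs', A r j = 0)
      (h2 : ∀ r ∈ rs', ∀ j ∈ xs, A r j = 0) (h : Nested A D rs xs) (h' : Nested A D rs' xs') :
      Nested A D (rs ∪ rs') (xs ∪ xs')
  | row {D : ℕ} {rs : Finset R} {xs : Finset X} (r : R) (hr : r ∉ rs) (h : Nested A D rs xs) :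
      Nested A (D + 1) (insert r rs) xs
  | col {D : ℕ} {rs : Finset R} {xs : Finset X} (j : X) (hj : j ∉ xs) (h : Nested A D rs xs) :
      Nested A (D + 1) rs (insert j xs)

theorem Nested.of_zero {R X : Type} [DecidableEq R] [DecidableEq X] {A A' : R → X → ℝ}
    (hA : ∀ r j, A r j = 0 → A' r j = 0) {D : ℕ} {rs : Finset R} {xs : Finset X}
    (h : Nested A D rs xs) : Nested A' D rs xs := by
  induction h with
  | nil D => exact Nested.nil D
  | union hr hx h1 h2 _ _ ih ih' =>
    exact Nested.union hr hx (fun r hr j hj => hA _ _ (h1 r hr j hj))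
      (fun r hr j hj => hA _ _ (h2 r hr j hj)) ih ih'
  | row r hr _ ih => exact Nested.row r hr ih
  | col j hj _ ih => exact Nested.col j hj ih

/-- the bound for the number of functions -/
def Bd (T D s : ℕ) : ℕ := (3 * s) ^ ((2 * T + 2) ^ D)

theorem Bd_add (T D s s' : ℕ) : Bd T D s + Bd T D s' ≤ Bd T D (s + s') := by
  unfold Bd
  have he : 1 ≤ (2 * T + 2) ^ D := Nat.one_le_pow _ _ (by omega)
  rw [mul_add]
  exact pow_add_pow_le (Nat.zero_le _) (Nat.zero_le _) (by omega)

theorem Bd_step (T D s M : ℕ) (hM : M + s ≤ Bd T D s) :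
    (2 * M + 3) ^ (T + 1) + (s + 1) ≤ Bd T (D + 1) (s + 1) := by
  have he : 1 ≤ (2 * T + 2) ^ D := Nat.one_le_pow _ _ (by omega)
  set e := (2 * T + 2) ^ D with he'
  have h1 : 2 * M + 3 + (s + 1) ≤ (3 * (s + 1)) ^ (e + 1) := by
    have h2 : M + s + 3 ≤ (3 * (s + 1)) ^ e := by
      have h3 : (3 * s) ^ e + 3 ^ e ≤ (3 * s + 3) ^ e :=
        pow_add_pow_le (Nat.zero_le _) (Nat.zero_le _) (by omega)
      have h4 : 3 ≤ 3 ^ e := by
        calc 3 = 3 ^ 1 := rfl
          _ ≤ 3 ^ e := Nat.pow_le_pow_right (by norm_num) he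
      have h5 : M + s ≤ (3 * s) ^ e := hM
      have h6 : 3 * (s + 1) = 3 * s + 3 := by ring
      rw [h6]
      omega
    have h4 : 3 * (3 * (s + 1)) ^ e ≤ (3 * (s + 1)) ^ (e + 1) := by
      rw [pow_succ, mul_comm]
      exact Nat.mul_le_mul_left _ (by omega)
    omega
  have h0 : (2 * M + 3) ^ (T + 1) + (s + 1) ≤ (2 * M + 3 + (s + 1)) ^ (T + 1) := by
    have h2 : (2 * M + 3) ^ (T + 1) + (s + 1) ^ (T + 1) ≤ (2 * M + 3 + (s + 1)) ^ (T + 1) :=
      pow_add_pow_le (Nat.zero_le _) (Nat.zero_le _) (by omega)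
    have h3 : s + 1 ≤ (s + 1) ^ (T + 1) := Nat.le_self_pow (by omega) _
    omega
  calc (2 * M + 3) ^ (T + 1) + (s + 1) ≤ (2 * M + 3 + (s + 1)) ^ (T + 1) := h0
    _ ≤ ((3 * (s + 1)) ^ (e + 1)) ^ (T + 1) := Nat.pow_le_pow_left h1 _
    _ = (3 * (s + 1)) ^ ((e + 1) * (T + 1)) := by rw [pow_mul]
    _ ≤ (3 * (s + 1)) ^ (e * (2 * T + 2)) := by
        apply Nat.pow_le_pow_right (by omega)
        nlinarith
    _ = Bd T (D + 1) (s + 1) := by
        unfold Bd
        rw [pow_succ (2 * T + 2) D]

theorem cards {T M h k p q h' k' : ℕ} (hh : h ≤ M) (hk : k ≤ M) (hT : p + 1 + q ≤ T)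
    (h1 : h' ≤ h + (h + 2) * (h + 2)) (h2 : k' ≤ k + (2 * h + 1) ^ (p + 1) * (2 * k + 1) ^ q) :
    h' ≤ (2 * M + 3) ^ (T + 1) ∧ k' ≤ (2 * M + 3) ^ (T + 1) := by
  constructor
  · have e : h + (h + 2) * (h + 2) ≤ (2 * M + 3) ^ 2 := by nlinarith
    exact (h1.trans e).trans (Nat.pow_le_pow_right (by omega) (by omega))
  · have e1 : (2 * h + 1) ^ (p + 1) * (2 * k + 1) ^ q ≤ (2 * M + 1) ^ T := by
      calc (2 * h + 1) ^ (p + 1) * (2 * k + 1) ^ q ≤ (2 * M + 1) ^ (p + 1) * (2 * M + 1) ^ q :=
            Nat.mul_le_mul (Nat.pow_le_pow_left (by omega) _) (Nat.pow_le_pow_left (by omega) _)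
        _ = (2 * M + 1) ^ (p + 1 + q) := by rw [← pow_add]
        _ ≤ _ := Nat.pow_le_pow_right (by omega) hT
    have e2 : M + (2 * M + 1) ^ T ≤ (2 * M + 3) ^ (T + 1) := by
      have e3 : (2 * M + 1) ^ T ≤ (2 * M + 3) ^ T := Nat.pow_le_pow_left (by omega) _
      have e4 : 1 ≤ (2 * M + 3) ^ T := Nat.one_le_pow _ _ (by omega)
      rw [pow_succ]
      nlinarith
    omega

/-- **The saddle value of a nested block has few pieces.** -/
theorem ind {R X : Type} [Fintype R] [Fintype X] [DecidableEq R] [DecidableEq X] {A : R → X → ℝ}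
    (T : ℕ) {D : ℕ} {rs : Finset R} {xs : Finset X} (h : Nested A D rs xs) :
    ∀ (E F : Type) [AddCommGroup E] [Module ℝ E] [FiniteDimensional ℝ E] [AddCommGroup F]
      [Module ℝ F] [FiniteDimensional ℝ F], finrank ℝ E + finrank ℝ F + D ≤ T →
      ∀ (β : R → E →ᵃ[ℝ] ℝ) (γ : X → F →ᵃ[ℝ] ℝ),
      ∃ (H : Finset (E →ᵃ[ℝ] ℝ)) (K : Finset (F →ᵃ[ℝ] ℝ)),
        H.card + (rs.card + xs.card) ≤ Bd T D (rs.card + xs.card) ∧
        K.card + (rs.card + xs.card) ≤ Bd T D (rs.card + xs.card) ∧
        PBA H K (fun x y => val A rs xs (fun r => β r x) (fun j => γ j y)) := by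
  classical
  induction h with
  | nil D =>
    intro E F _ _ _ _ _ _ _ β γ
    refine ⟨∅, ∅, by simp, by simp, fun x y => ⟨0, fun x' y' _ _ => ?_⟩⟩
    show val A ∅ ∅ _ _ = 0
    exact val_nil
  | @union D rs rs' xs xs' hr hx h1 h2 _ _ ih ih' =>
    intro E F _ _ _ _ _ _ hT β γ
    obtain ⟨H, K, hH, hK, hp⟩ := ih E F hT β γ
    obtain ⟨H', K', hH', hK', hp'⟩ := ih' E F hT β γ
    have hs : (rs ∪ rs').card + (xs ∪ xs').card = (rs.card + xs.card) + (rs'.card + xs'.card) := by
      rw [Finset.card_union_of_disjoint hr, Finset.card_union_of_disjoint hx]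
      ring
    have hB := Bd_add T D (rs.card + xs.card) (rs'.card + xs'.card)
    rw [hs]
    refine ⟨H ∪ H', K ∪ K', ?_, ?_, ?_⟩
    · have := Finset.card_union_le H H'
      omega
    · have := Finset.card_union_le K K'
      omega
    · have h3 := (hp.mono (Finset.subset_union_left (s₂ := H'))
        (Finset.subset_union_left (s₂ := K'))).add
        (hp'.mono (Finset.subset_union_right (s₁ := H)) (Finset.subset_union_right (s₁ := K)))
      have e : (fun (x : E) (y : F) => val A (rs ∪ rs') (xs ∪ xs') (fun r => β r x)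
          (fun j => γ j y)) = fun x y => val A rs xs (fun r => β r x) (fun j => γ j y) +
          val A rs' xs' (fun r => β r x) (fun j => γ j y) := by
        funext x y
        exact val_union hr hx h1 h2
      rw [e]
      exact h3
  | @col D rs xs j0 hj _ ih =>
    intro E F _ _ _ _ _ _ hT β γ
    have hfr : finrank ℝ (E × ℝ) = finrank ℝ E + 1 := by rw [finrank_prod, finrank_self]
    let β' : R → (E × ℝ) →ᵃ[ℝ] ℝ := fun r =>
      (β r).comp (LinearMap.fst ℝ E ℝ).toAffineMap +
        ((- A r j0) • LinearMap.snd ℝ E ℝ).toAffineMap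
    have hβ' : ∀ r x z, β' r (x, z) = β r x + z * (- A r j0) := by
      intro r x z
      show β r x + (- A r j0) * z = _
      ring
    obtain ⟨H, K, hH, hK, hp⟩ := ih (E × ℝ) F (by omega) β' γ
    obtain ⟨H', K', hH', hK', hp'⟩ := col (g := γ j0) (v := fun x y =>
        val A rs (insert j0 xs) (fun r => β r x) (fun j => γ j y)) (fun x y => by
        have h := val_concave A rs xs (fun r => β r x) (fun r => - A r j0) (fun j => γ j y)
        simpa only [hβ'] using h) hp (fun x y => by
        obtain ⟨u, hu, h1, h2⟩ := val_col (A := A) (rs := rs) (b := fun r => β r x)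
          (g := fun j => γ j y) hj
        refine ⟨u, hu, ?_, ?_⟩
        · unfold phi
          simp only [hβ']
          exact h1
        · unfold phi
          simp only [hβ']
          exact h2)
    have hc : rs.card + (insert j0 xs).card = rs.card + xs.card + 1 := by
      rw [Finset.card_insert_of_notMem hj]
      ring
    rw [hc]
    obtain ⟨M, hM⟩ : ∃ M, M + (rs.card + xs.card) = Bd T D (rs.card + xs.card) :=
      ⟨Bd T D (rs.card + xs.card) - (rs.card + xs.card), by omega⟩
    have hcs := cards (M := M) (by omega) (by omega)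
      (show finrank ℝ E + 1 + finrank ℝ F ≤ T by omega) hH' hK'
    have hst := Bd_step T D (rs.card + xs.card) M hM.le
    exact ⟨H', K', by omega, by omega, hp'⟩
  | @row D rs xs r0 hr _ ih =>
    intro E F _ _ _ _ _ _ hT β γ
    have hfr : finrank ℝ (F × ℝ) = finrank ℝ F + 1 := by rw [finrank_prod, finrank_self]
    let γ' : X → (F × ℝ) →ᵃ[ℝ] ℝ := fun j =>
      (γ j).comp (LinearMap.fst ℝ F ℝ).toAffineMap +
        ((- A r0 j) • LinearMap.snd ℝ F ℝ).toAffineMap
    have hγ' : ∀ j x z, γ' j (x, z) = γ j x + z * (- A r0 j) := by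
      intro j x z
      show γ j x + (- A r0 j) * z = _
      ring
    obtain ⟨H, K, hH, hK, hp⟩ := ih E (F × ℝ) (by omega) β γ'
    obtain ⟨K', H', hK', hH', hp'⟩ := col (g := - β r0) (v := fun y x =>
        - val A (insert r0 rs) xs (fun r => β r x) (fun j => γ j y)) (fun y x => by
        have h := val_concave (neg' A) xs rs (- fun j => γ j y) (fun j => A r0 j)
          (- fun r => β r x)
        have e : (fun z : ℝ => val (neg' A) xs rs (fun j => (- fun j => γ j y) j + z * A r0 j)
            (- fun r => β r x)) = fun z : ℝ => - val A rs xs (fun r => β r x)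
              (fun j => γ' j (y, z)) := by
          funext z
          rw [← val_swap]
          congr 1
          funext j
          simp only [Pi.neg_apply, hγ']
          ring
        rw [e] at h
        exact h) hp.swap (fun y x => by
        obtain ⟨u, hu, h1, h2⟩ := val_row (A := A) (xs := xs) (b := fun r => β r x)
          (g := fun j => γ j y) hr
        refine ⟨u, hu, ?_, ?_⟩
        · unfold phi
          simp only [hγ']
          exact h1
        · unfold phi
          simp only [hγ']
          exact h2)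
    have hc : (insert r0 rs).card + xs.card = rs.card + xs.card + 1 := by
      rw [Finset.card_insert_of_notMem hr]
      ring
    rw [hc]
    obtain ⟨M, hM⟩ : ∃ M, M + (rs.card + xs.card) = Bd T D (rs.card + xs.card) :=
      ⟨Bd T D (rs.card + xs.card) - (rs.card + xs.card), by omega⟩
    have hcs := cards (M := M) (by omega) (by omega)
      (show finrank ℝ F + 1 + finrank ℝ E ≤ T by omega) hK' hH'
    have hst := Bd_step T D (rs.card + xs.card) M hM.le
    refine ⟨H', K', by omega, by omega, ?_⟩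
    have := hp'.swap
    simpa only [neg_neg] using this

end Pool.Agent.N588.TD
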