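import Pool.Agent.N588.TD.Ind
import Pool.Agent.N477.RS4

set_option autoImplicit false

/-!
# The number of vertices of a shadow
-/

namespace Pool.Agent.N588.TD

open Module Set Filter Topology Matrix
open Pool.Agent.N477.MD Pool.Agent.N477.RS

variable {m n : ℕ}

/-- genericity of `z` with respect to `c`: the objective `c` is injective on the optimal faces of
the objectives `z + t c`, `t ≥ 0` -/
def Gen1 (P : Set (Fin n → ℝ)) (c z : Fin n → ℝ) : Prop :=
  ∀ t : ℝ, 0 ≤ t → ∀ x y, MaxAt P (z + t • c) x → MaxAt P (z + t • c) y →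
    c ⬝ᵥ x = c ⬝ᵥ y → x = y

theorem Phi_scaled (A : Fin m → Fin n → ℝ) (b : Fin m → ℝ) (l : Fin n → ℝ) (M K : ℝ)
    (x : Fin n → ℝ) (y : Fin m → ℝ) :
    Phi (fun i j => K * M * A i j) Finset.univ Finset.univ (fun i => K * b i)
      (fun j => M * l j) x y =
      (∑ j, l j * (M * x j)) + ∑ i, (K * y i) * (b i - ∑ j, A i j * (M * x j)) := by
  unfold Phi
  have e1 : ∑ i, (K * y i) * (b i - ∑ j, A i j * (M * x j)) =
      ∑ i, K * b i * y i - ∑ i, ∑ j, y i * (K * M * A i j) * x j := by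
    rw [← Finset.sum_sub_distrib]
    refine Finset.sum_congr rfl fun i _ => ?_
    rw [mul_sub, Finset.mul_sum]
    congr 1
    · ring
    · exact Finset.sum_congr rfl fun j _ => by ring
  have e2 : ∑ j, M * l j * x j = ∑ j, l j * (M * x j) :=
    Finset.sum_congr rfl fun j _ => by ring
  rw [e1, e2]
  ring

/-- the penalised optimal value has few pieces -/
theorem root {A : Fin m → Fin n → ℝ} {D : ℕ} (hN : Nested A D Finset.univ Finset.univ)
    (b : Fin m → ℝ) (c z : Fin n → ℝ) {M K : ℝ} (hM : 0 < M) (hK : 0 < K) :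
    ∃ (S : Finset (ℝ →ᵃ[ℝ] ℝ)) (V : ℝ → ℝ), S.card + (m + n) ≤ Bd (D + 1) D (m + n) ∧
      (∀ s, ∃ k0 k1 : ℝ, ∀ t, Same S s t → V t = k0 + t * k1) ∧
      (∀ t x, x ∈ Poly (arow A) (arhs b) → (∀ j, x j ≤ M) → (z + t • c) ⬝ᵥ x ≤ V t) ∧
      ∀ t s (y : Fin m → ℝ), (∀ i, 0 ≤ y i ∧ y i ≤ K) →
        (∀ x : Fin n → ℝ, (∀ j, 0 ≤ x j ∧ x j ≤ M) →
          (z + t • c) ⬝ᵥ x + ∑ i, y i * (b i - ∑ j, A i j * x j) ≤ s) → V t ≤ s := by
  have hN' : Nested (fun i j => K * M * A i j) D Finset.univ Finset.univ :=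
    hN.of_zero fun i j h => by rw [h, mul_zero]
  let γ : Fin n → ℝ →ᵃ[ℝ] ℝ := fun j =>
    (LinearMap.toSpanSingleton ℝ ℝ (M * c j)).toAffineMap + AffineMap.const ℝ ℝ (M * z j)
  have hγ : ∀ j t, γ j t = M * (z + t • c) j := by
    intro j t
    show t * (M * c j) + M * z j = M * (z j + t * c j)
    ring
  obtain ⟨H, S, -, hS, hp⟩ := ind (D + 1) hN' (Fin 0 → ℝ) ℝ (by simp; omega)
    (fun i => AffineMap.const ℝ (Fin 0 → ℝ) (K * b i)) γ
  rw [Finset.card_univ, Finset.card_univ, Fintype.card_fin, Fintype.card_fin] at hS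
  set V : ℝ → ℝ := fun t => val (fun i j => K * M * A i j) Finset.univ Finset.univ
    (fun i => K * b i) (fun j => M * (z + t • c) j) with hV
  refine ⟨S, V, hS, fun s => ?_, fun t x hx hxM => ?_, fun t s y hy hxy => ?_⟩
  · obtain ⟨Φ, hΦ⟩ := hp 0 s
    refine ⟨Φ 0 0, (Φ 0).linear 1, fun t ht => ?_⟩
    have h1 := hΦ 0 t (Same.refl _ _) ht
    have h2 : V t = Φ 0 t := by
      rw [← h1, hV]
      simp only [hγ]
      rfl
    rw [h2, aff_eq (Φ 0) t]
    have h3 : (Φ 0).linear t = t * (Φ 0).linear 1 := by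
      have : t = t • (1:ℝ) := by simp
      conv_lhs => rw [this]
      rw [map_smul, smul_eq_mul]
    rw [h3]
    ring
  · rw [mem_arow] at hx
    obtain ⟨xs, hxs, ys, hys, h1, h2⟩ := val_spec (fun i j => K * M * A i j) Finset.univ
      Finset.univ (fun i => K * b i) (fun j => M * (z + t • c) j)
    have h3 := h2 (fun j => x j / M) (fun j => ⟨div_nonneg (hx.2 j) hM.le, by
      rw [div_le_one hM]; exact hxM j⟩)
    rw [Phi_scaled A b (z + t • c) M K] at h3
    have e : ∀ j, M * (x j / M) = x j := fun j => by field_simp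
    simp only [e] at h3
    have h4 : 0 ≤ ∑ i, (K * ys i) * (b i - ∑ j, A i j * x j) :=
      Finset.sum_nonneg fun i _ => mul_nonneg (mul_nonneg hK.le (hys i).1)
        (sub_nonneg.2 (hx.1 i))
    have h5 : (z + t • c) ⬝ᵥ x = ∑ j, (z + t • c) j * x j := rfl
    rw [h5]
    linarith
  · obtain ⟨xs, hxs, ys, hys, h1, h2⟩ := val_spec (fun i j => K * M * A i j) Finset.univ
      Finset.univ (fun i => K * b i) (fun j => M * (z + t • c) j)
    have h3 := h1 (fun i => y i / K) (fun i => ⟨div_nonneg (hy i).1 hK.le, by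
      rw [div_le_one hK]; exact (hy i).2⟩)
    rw [Phi_scaled A b (z + t • c) M K] at h3
    have e : ∀ i, K * (y i / K) = y i := fun i => by field_simp
    simp only [e] at h3
    refine h3.trans (hxy (fun j => M * xs j) fun j => ⟨mul_nonneg hM.le (hxs j).1, ?_⟩)
    have := mul_le_mul_of_nonneg_left (hxs j).2 hM.le
    linarith

/-- dual certificates -/
theorem cert {A : Fin m → Fin n → ℝ} {b : Fin m → ℝ} {M : ℝ} {l v : Fin n → ℝ}
    (hv : v ∈ (Poly (rowsT (arow A) (fun _ => 1)) (rhsT (arhs b) (fun _ => 1) M)).extremePoints ℝ)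
    (hmax : MaxAt (Poly (rowsT (arow A) (fun _ => 1)) (rhsT (arhs b) (fun _ => 1) M)) l v) :
    ∃ y : Fin m → ℝ, (∀ i, 0 ≤ y i) ∧ ∀ x : Fin n → ℝ, (∀ j, 0 ≤ x j ∧ x j ≤ M) →
      l ⬝ᵥ x + ∑ i, y i * (b i - ∑ j, A i j * x j) ≤ l ⬝ᵥ v := by
  classical
  obtain ⟨S, yy, -, hS, hyy, hl⟩ := optimal_basis hv hmax
  refine ⟨fun i => ∑ k, if S k = Sum.inl (Sum.inl i) then yy k else 0, fun i =>
    Finset.sum_nonneg fun k _ => ?_, fun x hx => ?_⟩
  · split_ifs
    · exact hyy k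
    · exact le_rfl
  · have e1 : l ⬝ᵥ x = ∑ k, yy k * (rowsT (arow A) (fun _ => 1) (S k) ⬝ᵥ x) := by
      rw [hl, sum_dotProduct]
      exact Finset.sum_congr rfl fun k _ => by rw [smul_dotProduct, smul_eq_mul]
    have e2 : l ⬝ᵥ v = ∑ k, yy k * rhsT (arhs b) (fun _ => 1) M (S k) := by
      rw [hl, sum_dotProduct]
      refine Finset.sum_congr rfl fun k _ => ?_
      have h : rowsT (arow A) (fun _ => 1) (S k) ⬝ᵥ v = rhsT (arhs b) (fun _ => 1) M (S k) := hS k
      rw [smul_dotProduct, smul_eq_mul, h]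
    have e3 : ∑ i, (∑ k, if S k = Sum.inl (Sum.inl i) then yy k else 0) *
        (b i - ∑ j, A i j * x j) =
        ∑ k, yy k * ∑ i, if S k = Sum.inl (Sum.inl i) then b i - ∑ j, A i j * x j else 0 := by
      simp_rw [Finset.sum_mul, Finset.mul_sum]
      rw [Finset.sum_comm]
      refine Finset.sum_congr rfl fun k _ => Finset.sum_congr rfl fun i _ => ?_
      split_ifs <;> simp
    rw [e1, e2, e3, ← Finset.sum_add_distrib]
    refine Finset.sum_le_sum fun k _ => ?_
    rw [← mul_add]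
    refine mul_le_mul_of_nonneg_left ?_ (hyy k)
    rcases S k with (i | j) | j
    · rw [Finset.sum_eq_single i]
      · rw [if_pos rfl]
        have : rowsT (arow A) (fun _ => 1) (Sum.inl (Sum.inl i)) ⬝ᵥ x = ∑ j, A i j * x j := rfl
        rw [this]
        show _ ≤ b i
        linarith
      · intro i' _ hi'
        rw [if_neg]
        intro h
        exact hi' (Sum.inl.inj (Sum.inl.inj h)).symm
      · intro h; exact absurd (Finset.mem_univ _) h
    · rw [Finset.sum_eq_zero (fun i _ => if_neg (by simp)), add_zero]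
      show (-Pi.single j (1:ℝ) : Fin n → ℝ) ⬝ᵥ x ≤ 0
      rw [neg_dotProduct, single_dotProduct, one_mul]
      linarith [(hx j).1]
    · rw [Finset.sum_eq_zero (fun i _ => if_neg (by simp)), add_zero]
      show (Pi.single j (1:ℝ) : Fin n → ℝ) ⬝ᵥ x ≤ 1 * M
      rw [single_dotProduct, one_mul, one_mul]
      exact (hx j).2

/-- away from the zeros of the nonconstant functions nothing happens -/
theorem same_near (S : Finset (ℝ →ᵃ[ℝ] ℝ)) (s : ℝ)
    (h : ∀ f ∈ S, f s = 0 → ∀ t, f t = 0) : ∀ᶠ t in 𝓝 s, Same S s t := by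
  unfold Same
  rw [Filter.eventually_all_finset]
  intro f hf
  have hc : Continuous f := f.continuous_of_finiteDimensional
  rcases lt_trichotomy (f s) 0 with h1 | h1 | h1
  · filter_upwards [hc.continuousAt.eventually_lt continuousAt_const h1] with t ht
    rw [sign_neg h1, sign_neg ht]
  · refine Filter.Eventually.of_forall fun t => ?_
    rw [h1, h f hf h1 t]
  · filter_upwards [continuousAt_const.eventually_lt hc.continuousAt h1] with t ht
    rw [sign_pos h1, sign_pos ht]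

/-- **The number of vertices of a shadow.** -/
theorem vis_le {A : Fin m → Fin n → ℝ} {D : ℕ} (hN : Nested A D Finset.univ Finset.univ)
    (b : Fin m → ℝ) (c z : Fin n → ℝ) (hg : Gen1 (Poly (arow A) (arhs b)) c z) :
    (Vis (Poly (arow A) (arhs b)) c z).ncard + (m + n) ≤ Bd (D + 1) D (m + n) + 1 := by
  classical
  set P := Poly (arow A) (arhs b) with hP
  obtain ⟨C, hC⟩ := (ext_finite (a := arow A) (b := arhs b)).isBounded.exists_norm_le
  set M : ℝ := |C| + 1 with hMdef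
  have hM0 : 0 < M := by positivity
  have hM : ∀ x ∈ P.extremePoints ℝ, ∀ j, x j < M := by
    intro x hx j
    have h1 : |x j| ≤ ‖x‖ := norm_le_pi_norm x j
    have h2 := hC x hx
    have h3 := le_abs_self (x j)
    have h4 := le_abs_self C
    linarith
  have hσ : ∀ j : Fin n, (0:ℝ) < (fun _ => (1:ℝ)) j := fun _ => one_pos
  set PT := Poly (rowsT (arow A) (fun _ => 1)) (rhsT (arhs b) (fun _ => 1) M) with hPT
  have hcomp : IsCompact PT := by
    apply IsCompact.of_isClosed_subset (isCompact_Icc (a := (fun _ : Fin n => (0:ℝ)))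
      (b := fun _ => M)) isClosed_poly
    intro x hx
    have h1 := (mem_polyT hσ).1 hx
    have h2 := mem_arow.1 h1.1
    exact ⟨fun j => h2.2 j, fun j => h1.2 j⟩
  have hext : ∀ v ∈ P.extremePoints ℝ, v ∈ PT.extremePoints ℝ := fun v hv =>
    trunc_of_ext hσ (fun j => (hM v hv j).le) hv
  have hmaxT : ∀ v ∈ P.extremePoints ℝ, ∀ l, MaxAt P l v → MaxAt PT l v := by
    intro v hv l h
    exact ⟨(hext v hv).1, fun x hx => h.2 x ((mem_polyT hσ).1 hx).1⟩
  -- the vertices which are not optimal for `c`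
  set V0 : Set (Fin n → ℝ) := {v | v ∈ Vis P c z ∧ ¬ MaxAt P c v} with hV0
  set V1 : Set (Fin n → ℝ) := {v | v ∈ Vis P c z ∧ MaxAt P c v} with hV1
  have hfin : (Vis P c z).Finite := vis_finite c z
  have hsub : Vis P c z ⊆ V0 ∪ V1 := by
    intro v hv
    by_cases h : MaxAt P c v
    · exact Or.inr ⟨hv, h⟩
    · exact Or.inl ⟨hv, h⟩
  have hV1card : V1.ncard ≤ 1 := by
    have hf1 : V1.Finite := hfin.subset fun v hv => hv.1
    rw [Set.ncard_le_one hf1]
    rintro v ⟨⟨hv, s, hs0, hs⟩, hvc⟩ w ⟨⟨hw, t, ht0, ht⟩, hwc⟩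
    have hlater : ∀ u : Fin n → ℝ, MaxAt P c u → ∀ r r' : ℝ, r ≤ r' → MaxAt P (z + r • c) u →
        MaxAt P (z + r' • c) u := by
      intro u hu r r' hr h
      refine ⟨h.1, fun x hx => ?_⟩
      have h1 := h.2 x hx
      have h2 := mul_le_mul_of_nonneg_left (hu.2 x hx) (sub_nonneg.2 hr)
      simp only [add_dotProduct, smul_dotProduct, smul_eq_mul] at h1 ⊢
      linarith
    have hmax0 : 0 ≤ max s t := hs0.trans (le_max_left _ _)
    refine hg (max s t) hmax0 v w (hlater v hvc _ _ (le_max_left _ _) hs)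
      (hlater w hwc _ _ (le_max_right _ _) ht) (le_antisymm (hwc.2 v hvc.1) (hvc.2 w hwc.1))
  -- the last times
  have hlast : ∀ v ∈ V0, ∃ t, IsGreatest {t : ℝ | 0 ≤ t ∧ MaxAt P (z + t • c) v} t := by
    rintro v ⟨⟨hv, s, hs0, hs⟩, hvc⟩
    have hex : ∃ x ∈ P, c ⬝ᵥ v < c ⬝ᵥ x := by
      by_contra hcon
      push Not at hcon
      exact hvc ⟨hv.1, hcon⟩
    obtain ⟨x, hx, hlt⟩ := hex
    have hcl : IsClosed {t : ℝ | 0 ≤ t ∧ MaxAt P (z + t • c) v} := by
      have e : {t : ℝ | 0 ≤ t ∧ MaxAt P (z + t • c) v} =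
          Ici 0 ∩ {t : ℝ | MaxAt P (z + t • c) v} := by
        ext t; rfl
      rw [e]
      exact isClosed_Ici.inter (isClosed_times P c z v)
    have hbd : ∀ t ∈ {t : ℝ | 0 ≤ t ∧ MaxAt P (z + t • c) v},
        t ≤ (z ⬝ᵥ v - z ⬝ᵥ x) / (c ⬝ᵥ x - c ⬝ᵥ v) := by
      rintro t ⟨-, ht⟩
      have h1 := ht.2 x hx
      rw [add_dotProduct, add_dotProduct, smul_dotProduct, smul_dotProduct, smul_eq_mul,
        smul_eq_mul] at h1
      rw [le_div_iff₀ (by linarith)]
      linarith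
    have hcp : IsCompact {t : ℝ | 0 ≤ t ∧ MaxAt P (z + t • c) v} :=
      isCompact_Icc.of_isClosed_subset hcl fun t ht => ⟨ht.1, hbd t ht⟩
    exact hcp.exists_isGreatest ⟨s, hs0, hs⟩
  choose! τ hτ using hlast
  -- the certificates
  have hcert : ∀ v ∈ V0, ∃ y : Fin m → ℝ, (∀ i, 0 ≤ y i) ∧ ∀ x : Fin n → ℝ,
      (∀ j, 0 ≤ x j ∧ x j ≤ M) →
      (z + τ v • c) ⬝ᵥ x + ∑ i, y i * (b i - ∑ j, A i j * x j) ≤ (z + τ v • c) ⬝ᵥ v :=
    fun v hv => cert (hext v hv.1.1) (hmaxT v hv.1.1 _ (hτ v hv).1.2)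
  choose! Y hY0 hY using hcert
  have hV0fin : V0.Finite := hfin.subset fun v hv => hv.1
  set F0 := hV0fin.toFinset with hF0
  have hmemF : ∀ v, v ∈ F0 ↔ v ∈ V0 := fun v => Set.Finite.mem_toFinset _
  set K : ℝ := 1 + ∑ v ∈ F0, ∑ i, Y v i with hK
  have hK0 : 0 < K := by
    have : 0 ≤ ∑ v ∈ F0, ∑ i, Y v i :=
      Finset.sum_nonneg fun v hv => Finset.sum_nonneg fun i _ => hY0 v ((hmemF v).1 hv) i
    linarith
  have hYK : ∀ v ∈ V0, ∀ i, Y v i ≤ K := by
    intro v hv i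
    have h1 : Y v i ≤ ∑ i, Y v i :=
      Finset.single_le_sum (f := fun i => Y v i) (fun i _ => hY0 v hv i) (Finset.mem_univ i)
    have h2 : ∑ i, Y v i ≤ ∑ v ∈ F0, ∑ i, Y v i :=
      Finset.single_le_sum (f := fun v => ∑ i, Y v i)
        (fun v hv => Finset.sum_nonneg fun i _ => hY0 v ((hmemF v).1 hv) i) ((hmemF v).2 hv)
    linarith
  obtain ⟨S, V, hS, hV, hV1', hV2⟩ := root hN b c z hM0 hK0
  have hVτ : ∀ v ∈ V0, V (τ v) = (z + τ v • c) ⬝ᵥ v := by
    intro v hv
    refine le_antisymm (hV2 _ _ (Y v) (fun i => ⟨hY0 v hv i, hYK v hv i⟩) (hY v hv)) ?_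
    exact hV1' _ v hv.1.1.1 fun j => (hM v hv.1.1 j).le
  -- the last times are zeros of nonconstant functions
  have hzero : ∀ v ∈ V0, ∃ f ∈ S, f (τ v) = 0 ∧ ∃ t, f t ≠ 0 := by
    intro v hv
    by_contra hcon
    push Not at hcon
    have hnear := same_near S (τ v) fun f hf hf0 t => hcon f hf hf0 t
    obtain ⟨k0, k1, hk⟩ := hV (τ v)
    rw [Metric.eventually_nhds_iff] at hnear
    obtain ⟨δ, hδ, hnear⟩ := hnear
    have hge : ∀ t, (z + t • c) ⬝ᵥ v ≤ V t := fun t =>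
      hV1' t v hv.1.1.1 fun j => (hM v hv.1.1 j).le
    have hVt : ∀ t, |t - τ v| < δ → V t = k0 + t * k1 := fun t ht =>
      hk t (hnear (by rw [Real.dist_eq]; exact ht))
    have h0 := hVτ v hv
    rw [hVt (τ v) (by simpa using hδ)] at h0
    have hp := hge (τ v + δ / 2)
    have hn := hge (τ v - δ / 2)
    have a1 : |τ v + δ / 2 - τ v| < δ := by
      rw [add_sub_cancel_left, abs_of_pos (by linarith)]; linarith
    have a2 : |τ v - δ / 2 - τ v| < δ := by
      rw [show τ v - δ / 2 - τ v = -(δ / 2) by ring, abs_neg, abs_of_pos (by linarith)]; linarith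
    rw [hVt _ a1] at hp
    rw [hVt _ a2] at hn
    have hdot : ∀ t x, (z + t • c) ⬝ᵥ x = z ⬝ᵥ x + t * (c ⬝ᵥ x) := fun t x => by
      rw [add_dotProduct, smul_dotProduct, smul_eq_mul]
    rw [hdot] at h0 hp hn
    have hk1 : k1 = c ⬝ᵥ v := by
      have f1 : δ / 2 * (c ⬝ᵥ v) ≤ δ / 2 * k1 := by nlinarith
      have f2 : δ / 2 * k1 ≤ δ / 2 * (c ⬝ᵥ v) := by nlinarith
      have hd2 : 0 < δ / 2 := by linarith
      exact le_antisymm (le_of_mul_le_mul_left f2 hd2) (le_of_mul_le_mul_left f1 hd2)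
    have hlate : MaxAt P (z + (τ v + δ / 2) • c) v := by
      refine max_of_trunc hσ (hM v hv.1.1) ⟨(hext v hv.1.1).1, fun x hx => ?_⟩
      have hx' := (mem_polyT hσ).1 hx
      have h1 := hV1' (τ v + δ / 2) x hx'.1 hx'.2
      rw [hVt _ a1] at h1
      refine h1.trans (le_of_eq ?_)
      rw [hdot, hk1]
      rw [hk1] at h0
      linarith
    have := (hτ v hv).2 ⟨by linarith [(hτ v hv).1.1], hlate⟩
    linarith
  -- the last times are different
  have hinjτ : ∀ v ∈ V0, ∀ w ∈ V0, c ⬝ᵥ v < c ⬝ᵥ w → τ v ≠ τ w := by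
    intro v hv w hw hvw htt
    set t := τ w with ht
    obtain ⟨δ, hδ, hn⟩ := Metric.eventually_nhds_iff.1
      (near (a := rowsT (arow A) (fun _ => 1)) (b := rhsT (arhs b) (fun _ => 1) M) c z t)
    obtain ⟨u, hu, hum⟩ := exists_maxAt hcomp ⟨v, (hext v hv.1.1).1⟩ (z + (t + δ / 2) • c)
    have hut : MaxAt PT (z + t • c) u :=
      hn (y := t + δ / 2) (by rw [Real.dist_eq, add_sub_cancel_left, abs_of_pos (by linarith)]
                              linarith) u hu hum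
    have hwT : MaxAt PT (z + t • c) w := hmaxT w hw.1.1 _ (hτ w hw).1.2
    have hnot : ¬ MaxAt PT (z + (t + δ / 2) • c) w := by
      intro h
      have h1 := max_of_trunc hσ (hM w hw.1.1) h
      have h2 := (hτ w hw).2 ⟨by linarith [(hτ w hw).1.1], h1⟩
      linarith
    have hlt : (z + (t + δ / 2) • c) ⬝ᵥ w < (z + (t + δ / 2) • c) ⬝ᵥ u := by
      refine lt_of_le_of_ne (hum.2 w hwT.1) fun h => hnot ⟨hwT.1, fun y hy => ?_⟩
      rw [h]
      exact hum.2 y hy
    have e1 := maxAt_eq hut hwT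
    have hdot : ∀ t x, (z + t • c) ⬝ᵥ x = z ⬝ᵥ x + t * (c ⬝ᵥ x) := fun t x => by
      rw [add_dotProduct, smul_dotProduct, smul_eq_mul]
    rw [hdot, hdot] at hlt
    rw [dotProduct_sub, hdot, hdot] at e1
    have hcu : c ⬝ᵥ w < c ⬝ᵥ u := by
      have h3 : 0 < δ / 2 * (c ⬝ᵥ u - c ⬝ᵥ w) := by nlinarith
      by_contra hneg
      push Not at hneg
      have := mul_nonpos_of_nonneg_of_nonpos (by linarith : (0:ℝ) ≤ δ / 2)
        (sub_nonpos.2 hneg)
      linarith
    have huP : MaxAt P (z + t • c) u := by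
      refine ⟨((mem_polyT hσ).1 hut.1).1, fun x hx => ?_⟩
      have h1 := (hτ w hw).1.2.2 x hx
      rw [← ht] at h1
      rw [hdot] at h1 ⊢
      rw [hdot t u]
      rw [hdot] at h1
      linarith
    have hvP : MaxAt P (z + t • c) v := by
      have := (hτ v hv).1.2
      rwa [htt] at this
    have hwP : MaxAt P (z + t • c) w := (hτ w hw).1.2
    set s := (c ⬝ᵥ w - c ⬝ᵥ v) / (c ⬝ᵥ u - c ⬝ᵥ v) with hs
    have hden : 0 < c ⬝ᵥ u - c ⬝ᵥ v := by linarith
    have hs0 : 0 < s := div_pos (by linarith) hden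
    have hs1 : s < 1 := by rw [hs, div_lt_one hden]; linarith
    have hq : MaxAt P (z + t • c) ((1 - s) • v + s • u) := by
      refine ⟨convex_poly hvP.1 huP.1 (by linarith) hs0.le (by ring), fun x hx => ?_⟩
      rw [dotProduct_add, dotProduct_smul, dotProduct_smul, smul_eq_mul, smul_eq_mul]
      have h1 := mul_le_mul_of_nonneg_left (hvP.2 x hx) (by linarith : (0:ℝ) ≤ 1 - s)
      have h2 := mul_le_mul_of_nonneg_left (huP.2 x hx) hs0.le
      linarith
    have hqw := hg t (hτ w hw).1.1 _ w hq hwP (by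
      rw [dotProduct_add, dotProduct_smul, dotProduct_smul, smul_eq_mul, smul_eq_mul]
      have : s * (c ⬝ᵥ u - c ⬝ᵥ v) = c ⬝ᵥ w - c ⬝ᵥ v := div_mul_cancel₀ _ hden.ne'
      linarith)
    have hopen : w ∈ openSegment ℝ v u := ⟨1 - s, s, by linarith, hs0, by ring, hqw⟩
    have := hw.1.1.2 hvP.1 huP.1 hopen
    rw [this] at hvw
    exact lt_irrefl _ hvw
  have hne : ∀ v ∈ V0, ∀ w ∈ V0, τ v = τ w → v = w := by
    intro v hv w hw h
    rcases lt_trichotomy (c ⬝ᵥ v) (c ⬝ᵥ w) with h1 | h1 | h1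
    · exact absurd h (hinjτ v hv w hw h1)
    · exact hg (τ w) (hτ w hw).1.1 v w (by rw [← h]; exact (hτ v hv).1.2) (hτ w hw).1.2 h1
    · exact absurd h.symm (hinjτ w hw v hv h1)
  choose! f hfS hf0 hf1 using hzero
  have hV0card : V0.ncard ≤ S.card := by
    have h := Set.ncard_le_ncard_of_injOn (s := V0) (t := (S : Set (ℝ →ᵃ[ℝ] ℝ))) f
      (fun v hv => Finset.mem_coe.2 (hfS v hv)) (by
        intro v hv w hw hvw
        apply hne v hv w hw
        by_contra hne'
        -- a function with two zeros vanishes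
        have g0 := hf0 v hv
        have g1 := hf0 w hw
        rw [← hvw] at g1
        obtain ⟨t, ht⟩ := hf1 v hv
        apply ht
        have hseg := aff_seg (f v) (τ v) (τ w) ((t - τ v) / (τ w - τ v))
        rw [g0, g1, mul_zero, mul_zero, add_zero] at hseg
        have hd : τ w - τ v ≠ 0 := sub_ne_zero.2 (Ne.symm hne')
        have e : (1 - (t - τ v) / (τ w - τ v)) • τ v + ((t - τ v) / (τ w - τ v)) • τ w = t := by
          simp only [smul_eq_mul]
          field_simp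
          ring
        rwa [e] at hseg) S.finite_toSet
    rwa [Set.ncard_coe_finset] at h
  have hcard := (Set.ncard_le_ncard hsub (hV0fin.union (hfin.subset fun v hv => hv.1))).trans
    (Set.ncard_union_le _ _)
  omega

end Pool.Agent.N588.TD
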