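import Pool.Agent.N588.TD.Cnt

set_option autoImplicit false

/-!
# Functions which are bi-affine on products of sign classes
-/

namespace Pool.Agent.N588.TD

open Module

variable {E F : Type} [AddCommGroup E] [Module ℝ E] [AddCommGroup F] [Module ℝ F]

/-- the functions in `H` have the same signs at `x` and `y` -/
def Same (H : Finset (E →ᵃ[ℝ] ℝ)) (x y : E) : Prop :=
  ∀ h ∈ H, SignType.sign (h x) = SignType.sign (h y)

theorem Same.refl (H : Finset (E →ᵃ[ℝ] ℝ)) (x : E) : Same H x x := fun _ _ => rfl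

theorem Same.symm {H : Finset (E →ᵃ[ℝ] ℝ)} {x y : E} (h : Same H x y) : Same H y x :=
  fun f hf => (h f hf).symm

theorem Same.trans {H : Finset (E →ᵃ[ℝ] ℝ)} {x y z : E} (h : Same H x y) (h' : Same H y z) :
    Same H x z := fun f hf => (h f hf).trans (h' f hf)

theorem Same.mono {H H' : Finset (E →ᵃ[ℝ] ℝ)} (hH : H ⊆ H') {x y : E} (h : Same H' x y) :
    Same H x y := fun f hf => h f (hH hf)

/-- `v` is bi-affine on the product of any two sign classes -/
def PBA (H : Finset (E →ᵃ[ℝ] ℝ)) (K : Finset (F →ᵃ[ℝ] ℝ)) (v : E → F → ℝ) : Prop :=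
  ∀ (x : E) (y : F), ∃ Φ : E →ᵃ[ℝ] (F →ᵃ[ℝ] ℝ), ∀ x' y', Same H x x' → Same K y y' →
    v x' y' = Φ x' y'

theorem PBA.mono {H H' : Finset (E →ᵃ[ℝ] ℝ)} {K K' : Finset (F →ᵃ[ℝ] ℝ)} {v : E → F → ℝ}
    (h : PBA H K v) (hH : H ⊆ H') (hK : K ⊆ K') : PBA H' K' v := by
  intro x y
  obtain ⟨Φ, hΦ⟩ := h x y
  exact ⟨Φ, fun x' y' h1 h2 => hΦ x' y' (h1.mono hH) (h2.mono hK)⟩

theorem PBA.add {H : Finset (E →ᵃ[ℝ] ℝ)} {K : Finset (F →ᵃ[ℝ] ℝ)} {v w : E → F → ℝ}
    (h : PBA H K v) (h' : PBA H K w) : PBA H K (fun x y => v x y + w x y) := by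
  intro x y
  obtain ⟨Φ, hΦ⟩ := h x y
  obtain ⟨Ψ, hΨ⟩ := h' x y
  refine ⟨Φ + Ψ, fun x' y' h1 h2 => ?_⟩
  show v x' y' + w x' y' = _
  rw [hΦ x' y' h1 h2, hΨ x' y' h1 h2]
  rfl

/-- exchange of the two variables -/
noncomputable def flip (Φ : E →ᵃ[ℝ] (F →ᵃ[ℝ] ℝ)) : F →ᵃ[ℝ] (E →ᵃ[ℝ] ℝ) where
  toFun y :=
    { toFun := fun x => - Φ x y
      linear := - ((LinearMap.mk ⟨fun f : F →ᵃ[ℝ] ℝ => f y, fun _ _ => rfl⟩ fun _ _ => rfl) :
        (F →ᵃ[ℝ] ℝ) →ₗ[ℝ] ℝ).comp Φ.linear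
      map_vadd' := by
        intro p u
        have h := Φ.map_vadd p u
        rw [h]
        show - ((Φ.linear u) y + (Φ p) y) = - ((Φ.linear u) y) + - (Φ p) y
        ring }
  linear :=
    { toFun := fun u =>
        { toFun := fun x => - (Φ x).linear u
          linear := - ((LinearMap.mk ⟨fun f : F →ᵃ[ℝ] ℝ => f.linear u, fun f g => by simp⟩
              fun t f => by simp) : (F →ᵃ[ℝ] ℝ) →ₗ[ℝ] ℝ).comp Φ.linear
          map_vadd' := by
            intro p w
            have h := Φ.map_vadd p w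
            rw [h]
            show - ((Φ.linear w).linear u + (Φ p).linear u) =
              - ((Φ.linear w).linear u) + - (Φ p).linear u
            ring }
      map_add' := by
        intro u w
        ext x
        show - (Φ x).linear (u + w) = - (Φ x).linear u + - (Φ x).linear w
        rw [map_add]
        ring
      map_smul' := by
        intro t u
        ext x
        show - (Φ x).linear (t • u) = t • - (Φ x).linear u
        rw [map_smul]
        simp }
  map_vadd' := by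
    intro y u
    ext x
    show - Φ x (u + y) = - (Φ x).linear u + - Φ x y
    have h := (Φ x).map_vadd y u
    simp only [vadd_eq_add] at h
    rw [h]
    ring

@[simp] theorem flip_apply (Φ : E →ᵃ[ℝ] (F →ᵃ[ℝ] ℝ)) (x : E) (y : F) :
    flip Φ y x = - Φ x y := rfl

theorem PBA.swap {H : Finset (E →ᵃ[ℝ] ℝ)} {K : Finset (F →ᵃ[ℝ] ℝ)} {v : E → F → ℝ}
    (h : PBA H K v) : PBA K H (fun y x => - v x y) := by
  intro y x
  obtain ⟨Φ, hΦ⟩ := h x y
  exact ⟨flip Φ, fun y' x' h1 h2 => by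
    show - v x' y' = _
    rw [hΦ x' y' h2 h1, flip_apply]⟩

/-- finitely many bi-affine pieces suffice -/
theorem PBA.fam [FiniteDimensional ℝ E] [FiniteDimensional ℝ F] {H : Finset (E →ᵃ[ℝ] ℝ)}
    {K : Finset (F →ᵃ[ℝ] ℝ)} {v : E → F → ℝ} (h : PBA H K v) :
    ∃ S : Finset (E →ᵃ[ℝ] (F →ᵃ[ℝ] ℝ)),
      S.card ≤ (2 * H.card + 1) ^ finrank ℝ E * (2 * K.card + 1) ^ finrank ℝ F ∧
      ∀ (x : E) (y : F), ∃ Φ ∈ S, ∀ x' y', Same H x x' → Same K y y' → v x' y' = Φ x' y' := by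
  classical
  choose Φ hΦ using h
  let sE : E → ({h // h ∈ H} → SignType) := sgs (fun h : {h // h ∈ H} => h.1) Finset.univ
  let sF : F → ({h // h ∈ K} → SignType) := sgs (fun h : {h // h ∈ K} => h.1) Finset.univ
  have hsE : ∀ x x', sE x = sE x' → Same H x x' := by
    intro x x' hx f hf
    have := congrFun hx ⟨f, hf⟩
    simpa [sE, sgs] using this
  have hsF : ∀ x x', sF x = sF x' → Same K x x' := by
    intro x x' hx f hf
    have := congrFun hx ⟨f, hf⟩
    simpa [sF, sgs] using this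
  let rE : Finset ({h // h ∈ H} → SignType) := (Set.range sE).toFinite.toFinset
  let rF : Finset ({h // h ∈ K} → SignType) := (Set.range sF).toFinite.toFinset
  have hrE : rE.card ≤ (2 * H.card + 1) ^ finrank ℝ E := by
    have h1 := cnt (ι := {h // h ∈ H}) Finset.univ (finrank ℝ E) E rfl (fun h => h.1)
    rw [Finset.card_univ, Fintype.card_coe, Set.ncard_eq_toFinset_card _ (Set.toFinite _)] at h1
    exact h1
  have hrF : rF.card ≤ (2 * K.card + 1) ^ finrank ℝ F := by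
    have h1 := cnt (ι := {h // h ∈ K}) Finset.univ (finrank ℝ F) F rfl (fun h => h.1)
    rw [Finset.card_univ, Fintype.card_coe, Set.ncard_eq_toFinset_card _ (Set.toFinite _)] at h1
    exact h1
  refine ⟨(rE ×ˢ rF).image (fun p => Φ (Function.invFun sE p.1) (Function.invFun sF p.2)),
    ?_, fun x y => ?_⟩
  · refine Finset.card_image_le.trans ?_
    rw [Finset.card_product]
    exact Nat.mul_le_mul hrE hrF
  · have e1 : sE (Function.invFun sE (sE x)) = sE x := Function.invFun_eq ⟨x, rfl⟩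
    have e2 : sF (Function.invFun sF (sF y)) = sF y := Function.invFun_eq ⟨y, rfl⟩
    refine ⟨Φ (Function.invFun sE (sE x)) (Function.invFun sF (sF y)), ?_, fun x' y' h1 h2 => ?_⟩
    · rw [Finset.mem_image]
      refine ⟨(sE x, sF y), ?_, rfl⟩
      rw [Finset.mem_product]
      exact ⟨(Set.Finite.mem_toFinset _).2 ⟨x, rfl⟩, (Set.Finite.mem_toFinset _).2 ⟨y, rfl⟩⟩
    · exact hΦ _ _ x' y' ((hsE _ _ e1).trans h1) ((hsF _ _ e2).trans h2)

end Pool.Agent.N588.TD
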