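import Pool.Agent.N588.TD.Gen

set_option autoImplicit false

/-!
# Runs of the shadow vertex rule
-/

namespace Pool.Agent.N588.TD

open Module Set Filter Topology Matrix
open Pool.Agent.N477.MD Pool.Agent.N477.RS

variable {m n : ℕ}

/-- One pivot of the shadow vertex rule with the auxiliary objective `z`: `x` and `y` are vertices
joined by an edge on which `c` increases, and no point `u` of `P` with `c u > c x` has a larger
slope `z (u - x) / c (u - x)` than `y`. -/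
def SPiv (P : Set (Fin n → ℝ)) (c z x y : Fin n → ℝ) : Prop :=
  x ∈ P.extremePoints ℝ ∧ y ∈ P.extremePoints ℝ ∧ IsExposed ℝ P (segment ℝ x y) ∧
    c ⬝ᵥ x < c ⬝ᵥ y ∧ ∀ u ∈ P, c ⬝ᵥ x < c ⬝ᵥ u →
      (z ⬝ᵥ (u - x)) * (c ⬝ᵥ (y - x)) ≤ (z ⬝ᵥ (y - x)) * (c ⬝ᵥ (u - x))

/-- The shadow vertex rule finds an unbounded edge at `x` in the direction `d`. -/
def SRay (P : Set (Fin n → ℝ)) (c z x d : Fin n → ℝ) : Prop :=
  IsExposed ℝ P {y | ∃ t : ℝ, 0 ≤ t ∧ y = x + t • d} ∧ 0 < c ⬝ᵥ d ∧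
    ∀ u ∈ P, c ⬝ᵥ x < c ⬝ᵥ u → (z ⬝ᵥ (u - x)) * (c ⬝ᵥ d) ≤ (z ⬝ᵥ d) * (c ⬝ᵥ (u - x))

theorem dot_tc (c z : Fin n → ℝ) (t : ℝ) (x : Fin n → ℝ) :
    (z + t • c) ⬝ᵥ x = z ⬝ᵥ x + t * (c ⬝ᵥ x) := by
  rw [add_dotProduct, smul_dotProduct, smul_eq_mul]

theorem SPiv.next {P : Set (Fin n → ℝ)} {c z x y : Fin n → ℝ} (h : SPiv P c z x y) {s : ℝ}
    (hx : MaxAt P (z + s • c) x) : ∃ s', s ≤ s' ∧ MaxAt P (z + s' • c) y := by
  obtain ⟨hx1, hy1, -, hc, hs⟩ := h
  have hcpos : 0 < c ⬝ᵥ (y - x) := by rw [dotProduct_sub]; linarith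
  set s' := -(z ⬝ᵥ (y - x)) / (c ⬝ᵥ (y - x)) with hs'
  have hs'eq : s' * (c ⬝ᵥ (y - x)) = -(z ⬝ᵥ (y - x)) := div_mul_cancel₀ _ hcpos.ne'
  have hmul : ∀ u, (z + s' • c) ⬝ᵥ (u - x) = z ⬝ᵥ (u - x) + s' * (c ⬝ᵥ (u - x)) :=
    fun u => dot_tc c z s' (u - x)
  have hle : s ≤ s' := by
    rw [hs', le_div_iff₀ hcpos]
    have h1 := hx.2 y hy1.1
    rw [dot_tc, dot_tc] at h1
    rw [dotProduct_sub, dotProduct_sub]
    linarith
  refine ⟨s', hle, hy1.1, fun u hu => ?_⟩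
  have hyx : (z + s' • c) ⬝ᵥ (y - x) = 0 := by rw [hmul, hs'eq]; ring
  have hux : (z + s' • c) ⬝ᵥ (u - x) ≤ 0 := by
    rw [hmul]
    rcases lt_or_ge (c ⬝ᵥ x) (c ⬝ᵥ u) with h1 | h1
    · have h2 := hs u hu h1
      have h3 : (z ⬝ᵥ (u - x) + s' * (c ⬝ᵥ (u - x))) * (c ⬝ᵥ (y - x)) ≤ 0 := by
        have : (z ⬝ᵥ (u - x) + s' * (c ⬝ᵥ (u - x))) * (c ⬝ᵥ (y - x)) =
            (z ⬝ᵥ (u - x)) * (c ⬝ᵥ (y - x)) + (s' * (c ⬝ᵥ (y - x))) * (c ⬝ᵥ (u - x)) := by ring
        rw [this, hs'eq]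
        linarith
      by_contra hneg
      push Not at hneg
      have := mul_pos hneg hcpos
      linarith
    · have h2 := hx.2 u hu
      rw [dot_tc, dot_tc] at h2
      have h3 : (s' - s) * (c ⬝ᵥ (u - x)) ≤ 0 :=
        mul_nonpos_of_nonneg_of_nonpos (by linarith) (by rw [dotProduct_sub]; linarith)
      rw [dotProduct_sub] at h3 ⊢
      rw [dotProduct_sub]
      linarith
  have e1 : (z + s' • c) ⬝ᵥ u = (z + s' • c) ⬝ᵥ (u - x) + (z + s' • c) ⬝ᵥ x := by
    rw [← dotProduct_add, sub_add_cancel]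
  have e2 : (z + s' • c) ⬝ᵥ y = (z + s' • c) ⬝ᵥ (y - x) + (z + s' • c) ⬝ᵥ x := by
    rw [← dotProduct_add, sub_add_cancel]
  rw [e1, e2, hyx]
  linarith

/-- a run visits only optimal vertices of the objectives `z + t c` -/
theorem run_le {ι : Type} [Finite ι] {a : ι → Fin n → ℝ} {b : ι → ℝ} {c z v : Fin n → ℝ}
    (hv : v ∈ (Poly a b).extremePoints ℝ) (hz : MaxAt (Poly a b) z v) {N : ℕ}
    {x : ℕ → Fin n → ℝ} (h0 : x 0 = v) (hx : ∀ k < N, SPiv (Poly a b) c z (x k) (x (k + 1))) :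
    N + 1 ≤ (Vis (Poly a b) c z).ncard := by
  have hs : ∀ k ≤ N, x k ∈ (Poly a b).extremePoints ℝ ∧ ∃ s : ℝ, 0 ≤ s ∧
      MaxAt (Poly a b) (z + s • c) (x k) := by
    intro k
    induction k with
    | zero =>
      intro _
      rw [h0]
      exact ⟨hv, 0, le_rfl, by rw [zero_smul, add_zero]; exact hz⟩
    | succ k ih =>
      intro hk
      obtain ⟨-, s, hs0, hs⟩ := ih (by omega)
      obtain ⟨s', hs', h1⟩ := (hx k (by omega)).next hs
      exact ⟨(hx k (by omega)).2.1, s', hs0.trans hs', h1⟩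
  have hmono : ∀ i j, i < j → j ≤ N → c ⬝ᵥ (x i) < c ⬝ᵥ (x j) := by
    intro i j hij hj
    induction j with
    | zero => omega
    | succ j ih =>
      have h1 := (hx j (by omega)).2.2.2.1
      rcases Nat.lt_or_ge i j with h2 | h2
      · exact (ih h2 (by omega)).trans h1
      · have : i = j := by omega
        rw [this]
        exact h1
  have hinj : Set.InjOn x ((Finset.range (N + 1) : Finset ℕ) : Set ℕ) := by
    intro i hi j hj hij
    rw [Finset.mem_coe, Finset.mem_range] at hi hj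
    rcases lt_trichotomy i j with h | h | h
    · have := hmono i j h (by omega)
      rw [hij] at this
      exact absurd this (lt_irrefl _)
    · exact h
    · have := hmono j i h (by omega)
      rw [hij] at this
      exact absurd this (lt_irrefl _)
  have h := Set.ncard_le_ncard_of_injOn (t := Vis (Poly a b) c z) x (fun k hk => by
    rw [Finset.mem_coe, Finset.mem_range] at hk
    obtain ⟨h1, s, h2, h3⟩ := hs k (by omega)
    exact ⟨h1, s, h2, h3⟩) hinj (vis_finite _ _)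
  rwa [Set.ncard_coe_finset, Finset.card_range] at h

/-- the last time at which a vertex is optimal -/
theorem exists_last' {P : Set (Fin n → ℝ)} {c z v : Fin n → ℝ} {s : ℝ} (hs0 : 0 ≤ s)
    (hs : MaxAt P (z + s • c) v) (hvc : ¬ MaxAt P c v) :
    ∃ t, IsGreatest {t : ℝ | 0 ≤ t ∧ MaxAt P (z + t • c) v} t := by
  have hex : ∃ x ∈ P, c ⬝ᵥ v < c ⬝ᵥ x := by
    by_contra hcon
    push Not at hcon
    exact hvc ⟨hs.1, hcon⟩
  obtain ⟨x, hx, hlt⟩ := hex
  have hcl : IsClosed {t : ℝ | 0 ≤ t ∧ MaxAt P (z + t • c) v} := by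
    have e : {t : ℝ | 0 ≤ t ∧ MaxAt P (z + t • c) v} =
        Ici 0 ∩ {t : ℝ | MaxAt P (z + t • c) v} := by
      ext t; rfl
    rw [e]
    exact isClosed_Ici.inter (isClosed_times P c z v)
  have hbd : ∀ t ∈ {t : ℝ | 0 ≤ t ∧ MaxAt P (z + t • c) v},
      t ≤ (z ⬝ᵥ v - z ⬝ᵥ x) / (c ⬝ᵥ x - c ⬝ᵥ v) := by
    rintro t ⟨-, ht⟩
    have h1 := ht.2 x hx
    rw [dot_tc, dot_tc] at h1
    rw [le_div_iff₀ (by linarith)]
    linarith
  have hcp : IsCompact {t : ℝ | 0 ≤ t ∧ MaxAt P (z + t • c) v} :=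
    isCompact_Icc.of_isClosed_subset hcl fun t ht => ⟨ht.1, hbd t ht⟩
  exact hcp.exists_isGreatest ⟨s, hs0, hs⟩

/-- at the last time there is a better optimal point -/
theorem exists_better {A : Fin m → Fin n → ℝ} {b : Fin m → ℝ} {c z w : Fin n → ℝ} {t : ℝ}
    (hw : w ∈ (Poly (arow A) (arhs b)).extremePoints ℝ)
    (hτ : IsGreatest {t : ℝ | 0 ≤ t ∧ MaxAt (Poly (arow A) (arhs b)) (z + t • c) w} t) :
    ∃ u, MaxAt (Poly (arow A) (arhs b)) (z + t • c) u ∧ c ⬝ᵥ w < c ⬝ᵥ u := by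
  classical
  set P := Poly (arow A) (arhs b) with hP
  obtain ⟨C, hC⟩ := (ext_finite (a := arow A) (b := arhs b)).isBounded.exists_norm_le
  set M : ℝ := |C| + 1 with hMdef
  have hM : ∀ x ∈ P.extremePoints ℝ, ∀ j, x j < M := by
    intro x hx j
    have h1 : |x j| ≤ ‖x‖ := norm_le_pi_norm x j
    have h2 := hC x hx
    have h3 := le_abs_self (x j)
    have h4 := le_abs_self C
    linarith
  have hσ : ∀ j : Fin n, (0:ℝ) < (fun _ => (1:ℝ)) j := fun _ => one_pos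
  set PT := Poly (rowsT (arow A) (fun _ => 1)) (rhsT (arhs b) (fun _ => 1) M) with hPT
  have hcomp : IsCompact PT := by
    apply IsCompact.of_isClosed_subset (isCompact_Icc (a := (fun _ : Fin n => (0:ℝ)))
      (b := fun _ => M)) isClosed_poly
    intro x hx
    have h1 := (mem_polyT hσ).1 hx
    have h2 := mem_arow.1 h1.1
    exact ⟨fun j => h2.2 j, fun j => h1.2 j⟩
  have hwext : w ∈ PT.extremePoints ℝ := trunc_of_ext hσ (fun j => (hM w hw j).le) hw
  obtain ⟨δ, hδ, hn⟩ := Metric.eventually_nhds_iff.1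
    (near (a := rowsT (arow A) (fun _ => 1)) (b := rhsT (arhs b) (fun _ => 1) M) c z t)
  obtain ⟨u, hu, hum⟩ := exists_maxAt hcomp ⟨w, hwext.1⟩ (z + (t + δ / 2) • c)
  have hut : MaxAt PT (z + t • c) u :=
    hn (y := t + δ / 2) (by rw [Real.dist_eq, add_sub_cancel_left, abs_of_pos (by linarith)]
                            linarith) u hu hum
  have hwT : MaxAt PT (z + t • c) w :=
    ⟨hwext.1, fun x hx => hτ.1.2.2 x ((mem_polyT hσ).1 hx).1⟩
  have hnot : ¬ MaxAt PT (z + (t + δ / 2) • c) w := by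
    intro h
    have h1 := max_of_trunc hσ (hM w hw) h
    have h2 := hτ.2 ⟨by linarith [hτ.1.1], h1⟩
    linarith
  have hlt : (z + (t + δ / 2) • c) ⬝ᵥ w < (z + (t + δ / 2) • c) ⬝ᵥ u := by
    refine lt_of_le_of_ne (hum.2 w hwT.1) fun h => hnot ⟨hwT.1, fun y hy => ?_⟩
    rw [h]
    exact hum.2 y hy
  have e1 := maxAt_eq hut hwT
  rw [dot_tc, dot_tc] at hlt
  rw [dotProduct_sub, dot_tc, dot_tc] at e1
  refine ⟨u, ⟨((mem_polyT hσ).1 hut.1).1, fun x hx => ?_⟩, ?_⟩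
  · have h1 := hτ.1.2.2 x hx
    rw [dot_tc c z t w] at h1
    rw [dot_tc c z t u]
    linarith
  · have h3 : 0 < δ / 2 * (c ⬝ᵥ u - c ⬝ᵥ w) := by nlinarith
    by_contra hneg
    push Not at hneg
    have := mul_nonpos_of_nonneg_of_nonpos (by linarith : (0:ℝ) ≤ δ / 2)
      (sub_nonpos.2 hneg)
    linarith

/-- **The next pivot exists.** -/
theorem exists_next' {A : Fin m → Fin n → ℝ} {b : Fin m → ℝ} {c z x : Fin n → ℝ}
    (hg : Gen1 (Poly (arow A) (arhs b)) c z)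
    (hx : x ∈ (Poly (arow A) (arhs b)).extremePoints ℝ) {s : ℝ} (hs0 : 0 ≤ s)
    (hs : MaxAt (Poly (arow A) (arhs b)) (z + s • c) x)
    (hxc : ¬ MaxAt (Poly (arow A) (arhs b)) c x) :
    (∃ y, SPiv (Poly (arow A) (arhs b)) c z x y) ∨ ∃ d, SRay (Poly (arow A) (arhs b)) c z x d := by
  classical
  set P := Poly (arow A) (arhs b) with hP
  obtain ⟨t, ht⟩ := exists_last' hs0 hs hxc
  obtain ⟨u, hu, hcu⟩ := exists_better hx ht
  have hxm : MaxAt P (z + t • c) x := ht.1.2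
  have ht0 : 0 ≤ t := ht.1.1
  have hconv : Convex ℝ P := convex_poly
  have hdu : (z + t • c) ⬝ᵥ (u - x) = 0 := maxAt_eq hu hxm
  have hcd : 0 < c ⬝ᵥ (u - x) := by rw [dotProduct_sub]; linarith
  -- points on the line through `x` and `u`
  have hline : ∀ r : ℝ, x + r • (u - x) ∈ P → MaxAt P (z + t • c) (x + r • (u - x)) := by
    intro r hr
    refine ⟨hr, fun y hy => ?_⟩
    rw [dotProduct_add, dotProduct_smul, hdu, smul_zero, add_zero]
    exact hxm.2 y hy
  -- convex combinations of maximisers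
  have hcomb : ∀ p q : Fin n → ℝ, MaxAt P (z + t • c) p → MaxAt P (z + t • c) q → ∀ r : ℝ,
      0 ≤ r → r ≤ 1 → MaxAt P (z + t • c) (p + r • (q - p)) := by
    intro p q hp hq r h0 h1
    have e : p + r • (q - p) = (1 - r) • p + r • q := by
      rw [smul_sub, sub_smul, one_smul]; abel
    refine ⟨by rw [e]; exact hconv hp.1 hq.1 (by linarith) h0 (by ring), fun y hy => ?_⟩
    rw [dotProduct_add, dotProduct_smul, maxAt_eq hq hp, smul_zero, add_zero]
    exact hp.2 y hy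
  -- all maximisers are on the ray
  have hray : ∀ w, MaxAt P (z + t • c) w → ∃ r : ℝ, 0 ≤ r ∧ w = x + r • (u - x) := by
    intro w hw
    rcases lt_trichotomy (c ⬝ᵥ w) (c ⬝ᵥ x) with h | h | h
    · exfalso
      -- `x` is between `w` and `u`
      have hwu : 0 < c ⬝ᵥ u - c ⬝ᵥ w := by linarith
      set r := (c ⬝ᵥ x - c ⬝ᵥ w) / (c ⬝ᵥ u - c ⬝ᵥ w) with hr
      have hr0 : 0 < r := div_pos (by linarith) hwu
      have hr1 : r < 1 := by rw [hr, div_lt_one hwu]; linarith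
      have hq := hcomb w u hw hu r hr0.le hr1.le
      have hqx := hg t ht0 _ x hq hxm (by
        rw [dotProduct_add, dotProduct_smul, smul_eq_mul, dotProduct_sub]
        have : r * (c ⬝ᵥ u - c ⬝ᵥ w) = c ⬝ᵥ x - c ⬝ᵥ w := div_mul_cancel₀ _ hwu.ne'
        linarith)
      have hopen : x ∈ openSegment ℝ w u := ⟨1 - r, r, by linarith, hr0, by ring, by
        rw [← hqx, smul_sub, sub_smul, one_smul]; abel⟩
      have := hx.2 hw.1 hu.1 hopen
      rw [this] at h
      exact lt_irrefl _ h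
    · exact ⟨0, le_rfl, by rw [zero_smul, add_zero]; exact hg t ht0 w x hw hxm h⟩
    · rcases le_or_gt (c ⬝ᵥ w) (c ⬝ᵥ u) with h' | h'
      · set r := (c ⬝ᵥ w - c ⬝ᵥ x) / (c ⬝ᵥ u - c ⬝ᵥ x) with hr
        have hd : 0 < c ⬝ᵥ u - c ⬝ᵥ x := by linarith
        have hr0 : 0 ≤ r := (div_pos (by linarith) hd).le
        have hr1 : r ≤ 1 := by rw [hr, div_le_one hd]; linarith
        refine ⟨r, hr0, hg t ht0 w _ hw (hcomb x u hxm hu r hr0 hr1) ?_⟩
        rw [dotProduct_add, dotProduct_smul, smul_eq_mul, dotProduct_sub]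
        have : r * (c ⬝ᵥ u - c ⬝ᵥ x) = c ⬝ᵥ w - c ⬝ᵥ x := div_mul_cancel₀ _ hd.ne'
        linarith
      · set r := (c ⬝ᵥ u - c ⬝ᵥ x) / (c ⬝ᵥ w - c ⬝ᵥ x) with hr
        have hd : 0 < c ⬝ᵥ w - c ⬝ᵥ x := by linarith
        have hr0 : 0 < r := div_pos (by linarith) hd
        have hr1 : r ≤ 1 := by rw [hr, div_le_one hd]; linarith
        have hq := hg t ht0 u _ hu (hcomb x w hxm hw r hr0.le hr1) (by
          rw [dotProduct_add, dotProduct_smul, smul_eq_mul, dotProduct_sub]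
          have : r * (c ⬝ᵥ w - c ⬝ᵥ x) = c ⬝ᵥ u - c ⬝ᵥ x := div_mul_cancel₀ _ hd.ne'
          linarith)
        refine ⟨1 / r, by positivity, ?_⟩
        have e : u - x = r • (w - x) := by rw [hq]; abel
        rw [e, smul_smul, one_div, inv_mul_cancel₀ hr0.ne', one_smul]
        abel
  -- slopes
  have hslope : ∀ y : Fin n → ℝ, (z + t • c) ⬝ᵥ y = 0 → 0 < c ⬝ᵥ y → ∀ w ∈ P,
      c ⬝ᵥ x < c ⬝ᵥ w → (z ⬝ᵥ (w - x)) * (c ⬝ᵥ y) ≤ (z ⬝ᵥ y) * (c ⬝ᵥ (w - x)) := by
    intro y hy hcy w hw hcw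
    have h1 := hxm.2 w hw
    have h2 : (z + t • c) ⬝ᵥ (w - x) ≤ 0 := by rw [dotProduct_sub]; linarith
    rw [dot_tc] at h2 hy
    have h3 : z ⬝ᵥ y = -(t * (c ⬝ᵥ y)) := by linarith
    have h4 := mul_le_mul_of_nonneg_right (show z ⬝ᵥ (w - x) ≤ -(t * (c ⬝ᵥ (w - x))) by linarith)
      hcy.le
    rw [h3]
    linarith
  set I : Set ℝ := {r : ℝ | 0 ≤ r ∧ x + r • (u - x) ∈ P} with hI
  have h1I : (1:ℝ) ∈ I := ⟨zero_le_one, by rw [one_smul, add_sub_cancel]; exact hu.1⟩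
  have hIcl : IsClosed I := by
    have e : I = Ici 0 ∩ (fun r : ℝ => x + r • (u - x)) ⁻¹' P := by ext r; rfl
    rw [e]
    exact isClosed_Ici.inter (isClosed_poly.preimage (by fun_prop))
  have hIdown : ∀ r ∈ I, ∀ r', 0 ≤ r' → r' ≤ r → r' ∈ I := by
    rintro r ⟨hr0, hr⟩ r' hr'0 hr'
    refine ⟨hr'0, ?_⟩
    rcases hr0.eq_or_lt with h | h
    · have : r' = 0 := by linarith
      rw [this, zero_smul, add_zero]
      exact hx.1
    · have := hconv hx.1 hr (show 0 ≤ 1 - r' / r by rw [sub_nonneg, div_le_one h]; exact hr')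
        (show 0 ≤ r' / r by positivity) (by ring)
      have e : (1 - r' / r) • x + (r' / r) • (x + r • (u - x)) = x + r' • (u - x) := by
        ext j
        simp only [Pi.add_apply, Pi.smul_apply, smul_eq_mul, Pi.sub_apply]
        field_simp
        ring
      rwa [e] at this
  by_cases hb : BddAbove I
  · left
    have hmem : sSup I ∈ I := hIcl.csSup_mem ⟨1, h1I⟩ hb
    set r1 := sSup I with hr1
    have hr1ge : 1 ≤ r1 := le_csSup hb h1I
    have hr1pos : 0 < r1 := by linarith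
    set y := x + r1 • (u - x) with hy
    have hyx : y - x = r1 • (u - x) := by rw [hy]; abel
    have hym : MaxAt P (z + t • c) y := hline r1 hmem.2
    have hface : face P (z + t • c) = segment ℝ x y := by
      ext w
      constructor
      · intro hw
        obtain ⟨r, hr0, hr⟩ := hray w (mem_face.1 hw)
        have hrI : r ∈ I := ⟨hr0, by rw [← hr]; exact hw.1⟩
        have hrle : r ≤ r1 := le_csSup hb hrI
        rw [segment_eq_image']
        refine ⟨r / r1, ⟨by positivity, (div_le_one hr1pos).2 hrle⟩, ?_⟩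
        show x + (r / r1) • (y - x) = w
        rw [hyx, smul_smul, div_mul_cancel₀ _ hr1pos.ne', ← hr]
      · intro hw
        rw [segment_eq_image'] at hw
        obtain ⟨r, ⟨hr0, hr1'⟩, rfl⟩ := hw
        exact hcomb x y hxm hym r hr0 hr1'
    have hcy : 0 < c ⬝ᵥ (y - x) := by
      rw [hyx, dotProduct_smul, smul_eq_mul]
      exact mul_pos hr1pos hcd
    refine ⟨y, hx, ?_, ?_, ?_, ?_⟩
    · have hext : y ∈ (face P (z + t • c)).extremePoints ℝ := by
        refine ⟨hym, fun p hp q hq hpq => ?_⟩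
        obtain ⟨rp, hrp0, hrp⟩ := hray p (mem_face.1 hp)
        obtain ⟨rq, hrq0, hrq⟩ := hray q (mem_face.1 hq)
        have hrpI : rp ≤ r1 := le_csSup hb ⟨hrp0, by rw [← hrp]; exact hp.1⟩
        have hrqI : rq ≤ r1 := le_csSup hb ⟨hrq0, by rw [← hrq]; exact hq.1⟩
        obtain ⟨α, β, hα, hβ, hαβ, hsum⟩ := hpq
        have hc1 : α * (c ⬝ᵥ p) + β * (c ⬝ᵥ q) = c ⬝ᵥ y := by
          rw [← hsum, dotProduct_add, dotProduct_smul, dotProduct_smul, smul_eq_mul, smul_eq_mul]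
        rw [hrp, hrq, hy, dotProduct_add, dotProduct_add, dotProduct_add, dotProduct_smul,
          dotProduct_smul, dotProduct_smul, smul_eq_mul, smul_eq_mul, smul_eq_mul] at hc1
        have hc2 : (α * rp + β * rq) * (c ⬝ᵥ (u - x)) = r1 * (c ⬝ᵥ (u - x)) := by
          have : α * (c ⬝ᵥ x) + β * (c ⬝ᵥ x) = c ⬝ᵥ x := by rw [← add_mul, hαβ, one_mul]
          linarith
        have hc3 : α * rp + β * rq = r1 := mul_right_cancel₀ hcd.ne' hc2
        have hrp1 : rp = r1 := by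
          by_contra hne
          have hlt : rp < r1 := lt_of_le_of_ne hrpI hne
          have h1 := mul_lt_mul_of_pos_left hlt hα
          have h2 := mul_le_mul_of_nonneg_left hrqI hβ.le
          have h3 : α * r1 + β * r1 = r1 := by rw [← add_mul, hαβ, one_mul]
          linarith
        rw [hrp, hrp1]
      exact (face_ext.1 hext).1
    · rw [← hface]
      exact isExposed_face _ _
    · rw [dotProduct_sub] at hcy
      linarith
    · intro w hw hcw
      refine hslope (y - x) ?_ hcy w hw hcw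
      rw [hyx, dotProduct_smul, hdu, smul_zero]
  · right
    have hall : ∀ r : ℝ, 0 ≤ r → x + r • (u - x) ∈ P := by
      intro r hr
      rw [not_bddAbove_iff] at hb
      obtain ⟨r', hr', hlt⟩ := hb r
      exact (hIdown r' hr' r hr hlt.le).2
    refine ⟨u - x, ?_, hcd, fun w hw hcw => hslope (u - x) hdu hcd w hw hcw⟩
    have hface : face P (z + t • c) = {y | ∃ r : ℝ, 0 ≤ r ∧ y = x + r • (u - x)} := by
      ext w
      constructor
      · intro hw
        exact hray w (mem_face.1 hw)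
      · rintro ⟨r, hr, rfl⟩
        exact hline r (hall r hr)
    rw [← hface]
    exact isExposed_face _ _

/-- **Full runs exist.** -/
theorem exists_run {A : Fin m → Fin n → ℝ} {b : Fin m → ℝ} {c z v : Fin n → ℝ}
    (hg : Gen1 (Poly (arow A) (arhs b)) c z)
    (hv : v ∈ (Poly (arow A) (arhs b)).extremePoints ℝ)
    (hz : MaxAt (Poly (arow A) (arhs b)) z v) :
    ∃ (N : ℕ) (x : ℕ → Fin n → ℝ), x 0 = v ∧
      (∀ k < N, SPiv (Poly (arow A) (arhs b)) c z (x k) (x (k + 1))) ∧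
      x N ∈ (Poly (arow A) (arhs b)).extremePoints ℝ ∧
      (MaxAt (Poly (arow A) (arhs b)) c (x N) ∨
        ∃ d, SRay (Poly (arow A) (arhs b)) c z (x N) d) := by
  classical
  set P := Poly (arow A) (arhs b) with hP
  by_contra hcon
  -- runs of every length
  have hall : ∀ N : ℕ, ∃ w, Path (SPiv P c z) N v w ∧ w ∈ P.extremePoints ℝ ∧
      ∃ s : ℝ, 0 ≤ s ∧ MaxAt P (z + s • c) w := by
    intro N
    induction N with
    | zero => exact ⟨v, Path.nil v, hv, 0, le_rfl, by rw [zero_smul, add_zero]; exact hz⟩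
    | succ N ih =>
      obtain ⟨w, hp, hw, s, hs0, hs⟩ := ih
      obtain ⟨f, h0, hN, hf⟩ := hp.exists_seq
      have hwc : ¬ MaxAt P c w := by
        intro h
        exact hcon ⟨N, f, h0, hf, by rw [hN]; exact hw, Or.inl (by rw [hN]; exact h)⟩
      rcases exists_next' hg hw hs0 hs hwc with ⟨y, hy⟩ | ⟨d, hd⟩
      · obtain ⟨s', hs', h1⟩ := hy.next hs
        exact ⟨y, hp.trans (Path.cons hy (Path.nil y)), hy.2.1, s', hs0.trans hs', h1⟩
      · exact absurd ⟨N, f, h0, hf, by rw [hN]; exact hw, Or.inr ⟨d, by rw [hN]; exact hd⟩⟩ hcon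
  obtain ⟨w, hp, -, -⟩ := hall (Vis P c z).ncard
  obtain ⟨f, h0, -, hf⟩ := hp.exists_seq
  have h1 := run_le hv hz h0 hf
  rw [← hP] at h1
  omega

end Pool.Agent.N588.TD
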