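import Pool.Agent.N588.TD.Gen
import Pool.Agent.N477.RS10

set_option autoImplicit false

/-!
# The shadow vertex rule with fixed weights: bit model
-/

namespace Pool.Agent.N588.TD

open Pool.Agent.NPC hiding inp
open Pool.Agent.Y644.QS Pool.Agent.Y644.QW Pool.Agent.H687R2.LLL
open Pool.Agent.N477.RS

/-- the exponent -/
def kap (L : ℕ) : ℕ := L * (L * L * L) + 2 * (L * L) + 1

/-- the weights -/
def wts (L : ℕ) : List ℕ :=
  (List.range L).map fun i => (2 ^ kap L) ^ L + (2 ^ kap L) ^ i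

theorem wts_eq (L : ℕ) : ∃ ω : Fin L → Fin ((2 ^ kap L) ^ L),
    (∀ i, ((ω i : ℕ)) = (2 ^ kap L) ^ (i : ℕ)) ∧
    wts L = List.ofFn fun i => (2 ^ kap L) ^ L + (ω i : ℕ) := by
  have h1 : 1 < 2 ^ kap L := Nat.one_lt_two_pow (by unfold kap; omega)
  refine ⟨fun i => ⟨(2 ^ kap L) ^ (i : ℕ), Nat.pow_lt_pow_right h1 i.2⟩, fun i => rfl, ?_⟩
  unfold wts
  rw [List.ofFn_eq_map, ← List.map_coe_finRange_eq_range, List.map_map]
  rfl

/-! ### Heights -/

theorem sz_rat (q : ℚ) : sz q = sz q.num + sz q.den + 1 := by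
  have : sz q = sz (q.num, q.den) := rfl
  rw [this, sz_pair]

theorem den_lt (q : ℚ) {L : ℕ} (h : sz q ≤ L) : q.den < 2 ^ L := by
  refine lt_of_lt_of_le (nat_lt_two_pow q.den) (Nat.pow_le_pow_right (by norm_num) ?_)
  rw [sz_rat] at h
  omega

theorem num_lt (q : ℚ) {L : ℕ} (h : sz q ≤ L) : q.num.natAbs < 2 ^ L := by
  refine lt_of_lt_of_le (nat_lt_two_pow q.num.natAbs) (Nat.pow_le_pow_right (by norm_num) ?_)
  rw [sz_rat, sz_int] at h
  omega

/-- a common denominator -/
theorem scale (q : ℚ) {D L : ℕ} (hq : sz q ≤ L) (hD : q.den ∣ D) (hD0 : 0 < D) :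
    ∃ z : ℤ, (z : ℝ) = D * (q : ℝ) ∧ |z| ≤ ((2 ^ L * D : ℕ) : ℤ) := by
  obtain ⟨d, rfl⟩ := hD
  refine ⟨q.num * d, ?_, ?_⟩
  · rw [Rat.cast_def]
    have : (q.den : ℝ) ≠ 0 := by exact_mod_cast q.den_nz
    push_cast
    field_simp
  · rw [abs_mul, Int.abs_eq_natAbs, Int.abs_eq_natAbs, Int.natAbs_natCast]
    have h1 := (num_lt q hq).le
    have h2 : 1 ≤ q.den := q.den_pos
    have h3 : q.num.natAbs * d ≤ 2 ^ L * (q.den * d) := by
      calc q.num.natAbs * d ≤ 2 ^ L * d := Nat.mul_le_mul_right _ h1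
        _ ≤ 2 ^ L * (q.den * d) := Nat.mul_le_mul_left _ (Nat.le_mul_of_pos_left _ h2)
    exact_mod_cast h3

variable {m n : ℕ} {A : Fin m → Fin n → ℚ} {b : Fin m → ℚ} {c v : Fin n → ℚ}

theorem sz_entry (i : Fin m) (j : Fin n) : sz (A i j) ≤ sz (inp A b c v) := by
  have h1 : sz (A i j) < sz (List.ofFn (A i)) := sz_le_of_mem (List.mem_ofFn.2 ⟨j, rfl⟩)
  have h2 : sz (List.ofFn (A i)) < sz (List.ofFn fun i => List.ofFn (A i)) :=
    sz_le_of_mem (List.mem_ofFn.2 ⟨i, rfl⟩)
  have h3 : sz (inp A b c v) = sz ((List.ofFn fun i => List.ofFn (A i)), List.ofFn b,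
      List.ofFn c, List.ofFn v) := rfl
  rw [h3]
  simp only [sz_pair]
  omega

theorem sz_obj (j : Fin n) : sz (c j) ≤ sz (inp A b c v) := by
  have h1 : sz (c j) < sz (List.ofFn c) := sz_le_of_mem (List.mem_ofFn.2 ⟨j, rfl⟩)
  have h3 : sz (inp A b c v) = sz ((List.ofFn fun i => List.ofFn (A i)), List.ofFn b,
      List.ofFn c, List.ofFn v) := rfl
  rw [h3]
  simp only [sz_pair]
  omega

/-- **The rule succeeds** on linear programs of bounded incidence treedepth. -/
theorem run_ok (hv : re v ∈ Set.extremePoints ℝ (polyhedron A b)) {D : ℕ}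
    (hN : Nested (Ar A) D Finset.univ Finset.univ) {T : ℕ}
    (hT : Bd (D + 1) D (m + n) + 1 ≤ T + (m + n)) :
    run1 (inp A b c v) T (wts (sz (inp A b c v))) ≠ [] := by
  classical
  intro hrun
  obtain ⟨B, hB, hvis⟩ := run1_complete (c := c) hv
  set L := sz (inp A b c v) with hL
  have hmn : m + n < L := le_sz_inp
  have hnL : n ≤ L := by omega
  obtain ⟨ω, hω, hw⟩ := wts_eq L
  rw [hw] at hrun
  have h1 := hvis L _ hnL ω T hrun
  -- the common denominators
  set DA : ℕ := ∏ i : Fin m, ∏ j : Fin n, (A i j).den with hDA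
  set Dc : ℕ := ∏ j : Fin n, (c j).den with hDc
  have hDA0 : 0 < DA := Finset.prod_pos fun i _ => Finset.prod_pos fun j _ => (A i j).den_pos
  have hDc0 : 0 < Dc := Finset.prod_pos fun j _ => (c j).den_pos
  have hdA : ∀ i j, (A i j).den ∣ DA := fun i j =>
    (Finset.dvd_prod_of_mem (fun j => (A i j).den) (Finset.mem_univ j)).trans
      (Finset.dvd_prod_of_mem (fun i => ∏ j : Fin n, (A i j).den) (Finset.mem_univ i))
  have hdc : ∀ j, (c j).den ∣ Dc := fun j =>
    Finset.dvd_prod_of_mem (fun j => (c j).den) (Finset.mem_univ j)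
  choose AZ hAZ hAZ' using fun i j => scale (A i j) (sz_entry (b := b) (c := c) (v := v) i j)
    (hdA i j) hDA0
  choose cZ hcZ hcZ' using fun j => scale (c j) (sz_obj (A := A) (b := b) (v := v) j)
    (hdc j) hDc0
  rw [← hL] at hAZ' hcZ'
  have hDAle : DA ≤ 2 ^ (L * L * L) := by
    calc DA ≤ ∏ i : Fin m, (2 ^ L) ^ n := by
          refine Finset.prod_le_prod' fun i _ => ?_
          calc ∏ j : Fin n, (A i j).den ≤ ∏ _j : Fin n, 2 ^ L :=
                Finset.prod_le_prod' fun j _ => (den_lt _ (sz_entry i j)).le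
            _ = (2 ^ L) ^ n := by simp
      _ = 2 ^ (L * n * m) := by
          rw [Finset.prod_const, Finset.card_univ, Fintype.card_fin, ← pow_mul, ← pow_mul]
          congr 1
          ring
      _ ≤ 2 ^ (L * L * L) := Nat.pow_le_pow_right (by norm_num)
          (Nat.mul_le_mul (Nat.mul_le_mul_left _ hnL) (by omega))
  have hDcle : Dc ≤ 2 ^ (L * L * L) := by
    calc Dc ≤ ∏ _j : Fin n, 2 ^ L := Finset.prod_le_prod' fun j _ => (den_lt _ (sz_obj j)).le
      _ = 2 ^ (L * n) := by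
          rw [Finset.prod_const, Finset.card_univ, Fintype.card_fin, ← pow_mul]
      _ ≤ 2 ^ (L * L * L) := Nat.pow_le_pow_right (by norm_num) (by nlinarith)
  set H : ℕ := 2 ^ (L * L * L + L) with hH
  have hHeq : 2 ^ L * 2 ^ (L * L * L) = H := by rw [hH, ← pow_add, add_comm]
  have hHA : ∀ i j, |AZ i j| ≤ H := by
    intro i j
    refine (hAZ' i j).trans ?_
    have : 2 ^ L * DA ≤ H := by rw [← hHeq]; exact Nat.mul_le_mul_left _ hDAle
    exact_mod_cast this
  have hHc : ∀ j, |cZ j| ≤ H := by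
    intro j
    refine (hcZ' j).trans ?_
    have : 2 ^ L * Dc ≤ H := by rw [← hHeq]; exact Nat.mul_le_mul_left _ hDcle
    exact_mod_cast this
  have hHD : DA ≤ H := by
    rw [← hHeq]
    calc DA ≤ 2 ^ (L * L * L) := hDAle
      _ ≤ 2 ^ L * 2 ^ (L * L * L) := Nat.le_mul_of_pos_left _ (by positivity)
  -- the height bound
  have hlt : n * H * (n * H) ^ n < 2 ^ kap L := by
    have h2 : n ≤ 2 ^ L := hnL.trans Nat.lt_two_pow_self.le
    have h3 : n * H ≤ 2 ^ (L * L * L + 2 * L) := by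
      calc n * H ≤ 2 ^ L * H := Nat.mul_le_mul_right _ h2
        _ = 2 ^ (L * L * L + 2 * L) := by rw [hH, ← pow_add]; congr 1; ring
    have h4 : n * H * (n * H) ^ n = (n * H) ^ (n + 1) := by rw [pow_succ, mul_comm]
    rw [h4]
    calc (n * H) ^ (n + 1) ≤ (2 ^ (L * L * L + 2 * L)) ^ (n + 1) := Nat.pow_le_pow_left h3 _
      _ = 2 ^ ((L * L * L + 2 * L) * (n + 1)) := by rw [← pow_mul]
      _ ≤ 2 ^ ((L * L * L + 2 * L) * L) := Nat.pow_le_pow_right (by norm_num)
          (Nat.mul_le_mul_left _ (by omega))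
      _ < 2 ^ kap L := by
          apply Nat.pow_lt_pow_right (by norm_num)
          unfold kap
          nlinarith
  have hgen := gen_int (A := Ar A) (b := br b) (c := fun j => (c j : ℝ)) hDA0 hDc0 hAZ hcZ hHA hHc hHD hB
    (w := gpt ((2 ^ kap L) ^ L) fun k => ω (Fin.castLE hnL k)) (fun β hβ hβH => by
      have h2 := weights hnL hlt β hβ hβH
      have e : ∀ k : Fin n, gpt ((2 ^ kap L) ^ L) (fun k => ω (Fin.castLE hnL k)) k =
          1 + (((2 ^ kap L) ^ (k : ℕ) : ℕ) : ℝ) / (((2 ^ kap L) ^ L : ℕ) : ℝ) := by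
        intro k
        unfold gpt
        rw [hω]
        rfl
      simp only [e]
      exact h2)
  have h2 := vis_le hN (br b) (fun j => (c j : ℝ)) _ hgen
  omega

/-! ### Polynomial time -/

end Pool.Agent.N588.TD

namespace Pool.Agent.NPC.N588TD

open Pool.Agent.N477.RS Pool.Agent.Y644.QS Pool.Agent.Y644.QW Pool.Agent.H687R2.LLL
  Pool.Agent.NPC.H532.RP Pool.Agent.NPC.Y644 Pool.Agent.N588.TD

theorem poly_wts {α : Type} [TEnc α] {L : α → ℕ} (hL : UPoly L) : Poly (fun a => wts (L a)) := by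
  have hk : UPoly (fun a => kap (L a)) := by
    unfold kap
    fun_prop
  have hR : Poly (fun a => List.range (L a)) := hL.range
  have h2 : Poly (fun p : α × ℕ => 2 ^ kap (L p.1)) :=
    Poly.npow (Poly.const 2) (hk.comp (Poly.fst Poly.id))
  have h3 : Poly (fun p : α × ℕ => (2 ^ kap (L p.1)) ^ (L p.1)) :=
    Poly.npow h2 (hL.comp (Poly.fst Poly.id))
  have h4 : Poly (fun p : α × ℕ => (2 ^ kap (L p.1)) ^ (min p.2 (L p.1))) :=
    Poly.npow h2 (uPoly_min (Poly.snd Poly.id) (hL.comp (Poly.fst Poly.id)))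
  have h5 : Poly (fun a => (List.range (L a)).map fun i =>
      (2 ^ kap (L a)) ^ (L a) + (2 ^ kap (L a)) ^ (min i (L a))) :=
    Poly.map (F := fun a i => (2 ^ kap (L a)) ^ (L a) + (2 ^ kap (L a)) ^ (min i (L a)))
      hR (Poly.add h3 h4)
  refine h5.congr fun a => ?_
  unfold wts
  refine List.map_congr_left fun i hi => ?_
  rw [List.mem_range] at hi
  rw [min_eq_left hi.le]

/-- the algorithm on bit strings -/
def solve (s : List Bool) : Option Outp :=
  (unbits (List Unit × Inp) s).elim none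
    fun q => (run1 q.2 q.1.length (wts (sz q.2))).head?

theorem poly_solve : PolyTime (fun s => bits (solve s)) := by
  refine polyTime_bits ?_
  unfold solve
  have h0 : Poly (fun p : List Bool × (List Unit × Inp) => wts (sz p.2.2)) :=
    poly_wts (UPoly.sz (by fun_prop))
  have h1 : Poly (fun p : List Bool × (List Unit × Inp) =>
      (run1 p.2.2 p.2.1.length (wts (sz p.2.2))).head?) :=
    Poly.head? (N477RS.poly_run1 (by fun_prop) (by fun_prop) h0)
  exact Poly.optElim (h := fun (_ : List Bool) (q : List Unit × Inp) =>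
    (run1 q.2 q.1.length (wts (sz q.2))).head?) poly_unbits (Poly.const _) h1

theorem solve_bits (T : ℕ) (x : Inp) :
    solve (bits (List.replicate T (), x)) = (run1 x T (wts (sz x))).head? := by
  unfold solve
  rw [unbits_bits, Option.elim_some, List.length_replicate]

end Pool.Agent.NPC.N588TD
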